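import Pool.Agent.Lib.MP_dba578_co.DBD.Push

/-!
# Board DBD, module Contract: contract `X`
-/

set_option autoImplicit false

namespace DBD

open DBA

variable {V E : Type} [Fintype V] [DecidableEq V] [Fintype E] [DecidableEq E]

private def gg (X : Finset V) (v : V) : Option {v // v ∉ X} :=
  if h : v ∉ X then some ⟨v, h⟩ else none

private theorem gg_none (X : Finset V) (v : V) : gg X v = none ↔ v ∈ X := by
  unfold gg
  by_cases h : v ∈ X
  · simp [h]
  · simp [h]

private theorem gg_some (X : Finset V) (v : V) (w : {v // v ∉ X}) : gg X v = some w ↔ v = w := by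
  unfold gg
  by_cases h : v ∈ X
  · simp only [h, not_true_eq_false, dite_false]
    constructor
    · intro h'
      cases h'
    · intro h'
      exact absurd (h' ▸ h) w.2
  · simp only [h, not_false_eq_true, dite_true, Option.some_inj]
    constructor
    · intro h'
      rw [← h']
    · intro h'
      exact Subtype.ext h'

private theorem deg_none (a b : E → V) (X : Finset V)
    (D : Finset {e // ¬ (a e ∈ X ∧ b e ∈ X)}) :
    deg (fun e : {e // ¬ (a e ∈ X ∧ b e ∈ X)} => gg X (a e))
      (fun e : {e // ¬ (a e ∈ X ∧ b e ∈ X)} => gg X (b e)) D none =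
      ((D.map (Function.Embedding.subtype _)) ∩ cut a b X).card := by
  show (D.filter (fun e : {e // ¬ (a e ∈ X ∧ b e ∈ X)} => gg X (a e) = none)).card +
    (D.filter (fun e : {e // ¬ (a e ∈ X ∧ b e ∈ X)} => gg X (b e) = none)).card = _
  have e1 : Disjoint (D.filter (fun e : {e // ¬ (a e ∈ X ∧ b e ∈ X)} => gg X (a e) = none))
      (D.filter (fun e : {e // ¬ (a e ∈ X ∧ b e ∈ X)} => gg X (b e) = none)) := by
    rw [Finset.disjoint_filter]
    intro e _ h1 h2
    exact e.2 ⟨(gg_none X _).1 h1, (gg_none X _).1 h2⟩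
  rw [← Finset.card_union_of_disjoint e1, ← Finset.filter_or]
  have e2 : (D.map (Function.Embedding.subtype _)) ∩ cut a b X =
      (D.filter (fun e : {e // ¬ (a e ∈ X ∧ b e ∈ X)} =>
        gg X (a e) = none ∨ gg X (b e) = none)).map
        (Function.Embedding.subtype _) := by
    ext e
    simp only [Finset.mem_inter, Finset.mem_map, Finset.mem_filter, gg_none, cut, Finset.mem_univ,
      true_and, Function.Embedding.coe_subtype]
    constructor
    · rintro ⟨⟨f, hf, rfl⟩, h⟩
      refine ⟨f, ⟨hf, ?_⟩, rfl⟩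
      have := f.2
      tauto
    · rintro ⟨f, ⟨hf, h⟩, rfl⟩
      refine ⟨⟨f, hf, rfl⟩, ?_⟩
      have := f.2
      tauto
  rw [e2, Finset.card_map]

private theorem deg_some (a b : E → V) (X : Finset V) (w : {v // v ∉ X}) :
    deg (fun e : {e // ¬ (a e ∈ X ∧ b e ∈ X)} => gg X (a e))
      (fun e : {e // ¬ (a e ∈ X ∧ b e ∈ X)} => gg X (b e)) Finset.univ (some w) ≤
      deg a b Finset.univ w := by
  unfold deg
  apply Nat.add_le_add
  · rw [← Finset.card_map (Function.Embedding.subtype _)]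
    apply Finset.card_le_card
    intro e he
    simp only [Finset.mem_map, Finset.mem_filter, Finset.mem_univ, true_and, gg_some,
      Function.Embedding.coe_subtype] at he ⊢
    obtain ⟨f, hf, rfl⟩ := he
    exact hf
  · rw [← Finset.card_map (Function.Embedding.subtype _)]
    apply Finset.card_le_card
    intro e he
    simp only [Finset.mem_map, Finset.mem_filter, Finset.mem_univ, true_and, gg_some,
      Function.Embedding.coe_subtype] at he ⊢
    obtain ⟨f, hf, rfl⟩ := he
    exact hf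

theorem contract {Q : ℕ → Prop} (a b : E → V) (x : E → ℕ)
    (hIH : IH Q (L1 a b) (L2 a b)) (hx : ∀ e, Q (x e))
    (hA : Adm a b x) (h3 : ∀ v, deg a b Finset.univ v = 3) (X : Finset V)
    (hc : (cut a b X).card - 3 + 1 < X.card) :
    ∃ (ι : Type) (_ : Fintype ι) (C : ι → Finset E),
      (∀ j, ∀ e ∈ C j, ¬ (a e ∈ X ∧ b e ∈ X)) ∧
      (∀ j, ∀ v, v ∉ X → (∑ e ∈ C j, gd a b e) v = 0) ∧
      (∀ j, Even ((C j ∩ cut a b X).card)) ∧
      ∀ e, ¬ (a e ∈ X ∧ b e ∈ X) → x e = (Finset.univ.filter fun j => e ∈ C j).card := by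
  have hmu : L1 (fun e : {e // ¬ (a e ∈ X ∧ b e ∈ X)} => gg X (a e))
      (fun e : {e // ¬ (a e ∈ X ∧ b e ∈ X)} => gg X (b e)) < L1 a b := by
    have s1 : ∑ v, (deg a b Finset.univ v - 3) = 0 :=
      Finset.sum_eq_zero fun v _ => by simp [h3 v]
    have s2 : ∑ w : {v // v ∉ X}, (deg (fun e : {e // ¬ (a e ∈ X ∧ b e ∈ X)} => gg X (a e))
        (fun e : {e // ¬ (a e ∈ X ∧ b e ∈ X)} => gg X (b e)) Finset.univ (some w) - 3) = 0 := by
      refine Finset.sum_eq_zero fun w _ => ?_
      apply Nat.sub_eq_zero_of_le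
      exact (deg_some a b X w).trans (h3 w).le
    have s3 : deg (fun e : {e // ¬ (a e ∈ X ∧ b e ∈ X)} => gg X (a e))
        (fun e : {e // ¬ (a e ∈ X ∧ b e ∈ X)} => gg X (b e)) Finset.univ none ≤
        (cut a b X).card := by
      rw [deg_none]
      exact Finset.card_le_card Finset.inter_subset_right
    have s4 : Fintype.card {v // v ∉ X} = Fintype.card V - X.card := by
      have h1 : (Finset.univ.filter fun v => v ∉ X) = Xᶜ := by ext; simp
      rw [Fintype.card_subtype, h1, Finset.card_compl]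
    have s5 := Finset.card_le_univ X
    unfold L1
    rw [s1, Fintype.sum_option, s2, Fintype.card_option, s4]
    omega
  have hadm := adm_pull a b x hA (gg X) (fun e => ¬ (a e ∈ X ∧ b e ∈ X)) (fun e he => by
    left
    have he' := not_not.1 he
    rw [(gg_none X _).2 he'.1, (gg_none X _).2 he'.2])
  obtain ⟨ι, hι, C', hC', hxC⟩ := hIH (Option {v // v ∉ X}) {e // ¬ (a e ∈ X ∧ b e ∈ X)}
    (fun e => gg X (a e)) (fun e => gg X (b e)) (fun e => x e) (Or.inl hmu) (fun e => hx e) hadm
  refine ⟨ι, hι, fun j => (C' j).map (Function.Embedding.subtype _), ?_, ?_, ?_, ?_⟩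
  · intro j e he
    obtain ⟨f, -, rfl⟩ := Finset.mem_map.1 he
    exact f.2
  · intro j v hv
    have h1 := push_sum (fun e : {e // ¬ (a e ∈ X ∧ b e ∈ X)} => a e)
      (fun e : {e // ¬ (a e ∈ X ∧ b e ∈ X)} => b e) (gg X) (C' j) (some ⟨v, hv⟩)
    have h2 : (Finset.univ.filter fun w => gg X w = some ⟨v, hv⟩) = {v} := by
      ext w
      simp [gg_some]
    rw [h2, Finset.sum_singleton, sum_sub] at h1
    rw [← h1]
    have h3 := congrFun (hC' j) (some ⟨v, hv⟩)
    exact h3
  · intro j
    rw [← deg_none]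
    have h1 := sum_gd_apply (fun e : {e // ¬ (a e ∈ X ∧ b e ∈ X)} => gg X (a e))
      (fun e : {e // ¬ (a e ∈ X ∧ b e ∈ X)} => gg X (b e)) (C' j) none
    rw [hC' j] at h1
    have h2 : ((deg (fun e : {e // ¬ (a e ∈ X ∧ b e ∈ X)} => gg X (a e))
      (fun e : {e // ¬ (a e ∈ X ∧ b e ∈ X)} => gg X (b e)) (C' j) none : ℕ) : ZMod 2) = 0 :=
      h1.symm
    exact even_iff_two_dvd.2 ((ZMod.natCast_eq_zero_iff _ _).1 h2)
  · intro e he
    refine (hxC ⟨e, he⟩).trans ?_
    congr 1
    ext j
    simp only [Finset.mem_filter, Finset.mem_univ, true_and, Finset.mem_map,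
      Function.Embedding.coe_subtype]
    constructor
    · intro h
      exact ⟨⟨e, he⟩, h, rfl⟩
    · rintro ⟨f, hf, hfe⟩
      have : f = ⟨e, he⟩ := Subtype.ext hfe
      rw [← this]
      exact hf

end DBD
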