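import Pool.Agent.Lib.MP_dba578_co.DBA.Cyc
import Pool.Agent.Lib.MP_dba578_co.DBA.Dec

/-!
# MP_dba578_co: reduction of Seymour's even cycle cover conjecture to a cubic core.  Definitions.
-/

set_option autoImplicit false

namespace DBD

open DBA

section Graph

variable {V E : Type} [Fintype V] [DecidableEq V] [Fintype E] [DecidableEq E]

/-- The edge cut `δ(X)`. -/
def cut (a b : E → V) (X : Finset V) : Finset E :=
  Finset.univ.filter fun e => ¬ (a e ∈ X ↔ b e ∈ X)

/-- Condition (3.1), for all edge cuts. -/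
def Adm (a b : E → V) (x : E → ℕ) : Prop :=
  ∀ X : Finset V, ∀ e ∈ cut a b X, x e ≤ ∑ f ∈ (cut a b X).erase e, x f

/-- `x` is a sum of incidence vectors of even edge sets. -/
def SumEven (a b : E → V) (x : E → ℕ) : Prop :=
  ∃ (ι : Type) (_ : Fintype ι) (C : ι → Finset E), (∀ j, ∑ e ∈ C j, gd a b e = 0) ∧
    ∀ e, x e = (Finset.univ.filter fun j => e ∈ C j).card

/-- Cubic; positive weights; every cut with at least two vertices on both sides has at least 4 edges and,
if it has at most as many edges as there are vertices on each of its two sides, no tight edge. -/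
def Core (a b : E → V) (x : E → ℕ) : Prop :=
  (∀ v, deg a b Finset.univ v = 3) ∧ (∀ e, 0 < x e) ∧
    ∀ X : Finset V, 2 ≤ X.card → 2 ≤ Xᶜ.card → 4 ≤ (cut a b X).card ∧
      ((cut a b X).card ≤ X.card → (cut a b X).card ≤ Xᶜ.card →
        ∀ e ∈ cut a b X, x e < ∑ f ∈ (cut a b X).erase e, x f)

/-- The first measure: it never grows. -/
def L1 (a b : E → V) : ℕ := Fintype.card V + ∑ v, (deg a b Finset.univ v - 3)

/-- The second measure. -/
def L2 (a b : E → V) : ℕ := Fintype.card E + 2 * ∑ v, (deg a b Finset.univ v - 3)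

end Graph

/-- The statement for all graphs of smaller measure and weights with values in `Q`. -/
def IH (Q : ℕ → Prop) (m n : ℕ) : Prop :=
  ∀ (V E : Type) [Fintype V] [DecidableEq V] [Fintype E] [DecidableEq E] (a b : E → V) (x : E → ℕ),
    (L1 a b < m ∨ (L1 a b ≤ m ∧ L2 a b < n)) → (∀ e, Q (x e)) → Adm a b x → SumEven a b x

end DBD
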