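import Mathlib

/-!
# Two families of even subsets of a set of at most 3 elements with the same counts agree up to a bijection
-/

set_option autoImplicit false

namespace DBD

private theorem ident {E : Type} [DecidableEq E] {B s t : Finset E} (hB : B.card ≤ 3) (hs : s ⊆ B)
    (ht : t ⊆ B) (es : Even s.card) (et : Even t.card) (hn : t.Nonempty) :
    2 * (if s = t then 1 else 0) + ((B \ t).filter fun e => e ∈ s).card =
      (t.filter fun e => e ∈ s).card := by
  have h1 : ((B \ t).filter fun e => e ∈ s) = s \ t := by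
    ext e
    simp only [Finset.mem_filter, Finset.mem_sdiff]
    constructor
    · rintro ⟨⟨-, h2⟩, h3⟩; exact ⟨h3, h2⟩
    · rintro ⟨h2, h3⟩; exact ⟨⟨hs h2, h3⟩, h2⟩
  have h2 : (t.filter fun e => e ∈ s) = s ∩ t := by
    ext e
    simp only [Finset.mem_filter, Finset.mem_inter]
    exact and_comm
  rw [h1, h2]
  have h3 := Finset.card_sdiff_add_card_inter s t
  have h4 : (s \ t).card ≤ (B \ t).card := Finset.card_le_card (Finset.sdiff_subset_sdiff hs le_rfl)
  have h5 := Finset.card_sdiff_add_card_eq_card ht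
  have h6 := Finset.card_le_card hs
  have h7 := Finset.card_le_card ht
  have h8 := hn.card_pos
  obtain ⟨k, hk⟩ := es
  obtain ⟨l, hl⟩ := et
  by_cases hst : s = t
  · subst hst
    simp
    omega
  · rw [if_neg hst]
    by_cases h9 : (s \ t).card = 0
    · rw [Finset.card_eq_zero, Finset.sdiff_eq_empty_iff_subset] at h9
      by_cases h10 : s.card = 0
      · have h11 : (s ∩ t).card = 0 := by omega
        have h12 : (s \ t).card = 0 := by omega
        omega
      · exact absurd (Finset.eq_of_subset_of_card_le h9 (by omega)) hst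
    · omega

private theorem dcount {E ι : Type} [DecidableEq E] [Fintype ι] (A : Finset E) (t : ι → Finset E) :
    ∑ j, (A.filter fun e => e ∈ t j).card =
      ∑ e ∈ A, (Finset.univ.filter fun j => e ∈ t j).card := by
  simp only [Finset.card_filter]
  exact Finset.sum_comm

private theorem fib {E ι : Type} [DecidableEq E] [Fintype ι] {B t : Finset E} (hB : B.card ≤ 3)
    (f : ι → Finset E) (hf : ∀ j, f j ⊆ B) (ef : ∀ j, Even (f j).card) (ht : t ⊆ B)
    (et : Even t.card) (hn : t.Nonempty) :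
    2 * (Finset.univ.filter fun j => f j = t).card +
      ∑ e ∈ B \ t, (Finset.univ.filter fun j => e ∈ f j).card =
      ∑ e ∈ t, (Finset.univ.filter fun j => e ∈ f j).card := by
  rw [← dcount, ← dcount, Finset.card_filter, Finset.mul_sum, ← Finset.sum_add_distrib]
  exact Finset.sum_congr rfl fun j _ => ident hB (hf j) ht (ef j) et hn

theorem match_fam {E ι₁ ι₂ : Type} [DecidableEq E] [Fintype ι₁] [Fintype ι₂] (B : Finset E)
    (hB : B.card ≤ 3) (t₁ : ι₁ → Finset E) (t₂ : ι₂ → Finset E) (h₁ : ∀ j, t₁ j ⊆ B)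
    (h₂ : ∀ j, t₂ j ⊆ B) (e₁ : ∀ j, Even (t₁ j).card) (e₂ : ∀ j, Even (t₂ j).card)
    (hc : ∀ e ∈ B, (Finset.univ.filter fun j => e ∈ t₁ j).card =
      (Finset.univ.filter fun j => e ∈ t₂ j).card) :
    ∃ σ : {j // (t₁ j).Nonempty} ≃ {j // (t₂ j).Nonempty}, ∀ j, t₂ (σ j).1 = t₁ j.1 := by
  classical
  have key : ∀ t : Finset E, t.Nonempty → (Finset.univ.filter fun j => t₁ j = t).card =
      (Finset.univ.filter fun j => t₂ j = t).card := by
    intro t hn
    by_cases ht : t ⊆ B ∧ Even t.card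
    · have a1 := fib hB t₁ h₁ e₁ ht.1 ht.2 hn
      have a2 := fib hB t₂ h₂ e₂ ht.1 ht.2 hn
      have a3 : ∑ e ∈ B \ t, (Finset.univ.filter fun j => e ∈ t₁ j).card =
          ∑ e ∈ B \ t, (Finset.univ.filter fun j => e ∈ t₂ j).card :=
        Finset.sum_congr rfl fun e he => hc e (Finset.mem_sdiff.1 he).1
      have a4 : ∑ e ∈ t, (Finset.univ.filter fun j => e ∈ t₁ j).card =
          ∑ e ∈ t, (Finset.univ.filter fun j => e ∈ t₂ j).card :=
        Finset.sum_congr rfl fun e he => hc e (ht.1 he)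
      omega
    · have a1 : (Finset.univ.filter fun j => t₁ j = t) = ∅ := by
        rw [Finset.filter_eq_empty_iff]
        intro j _ hj
        exact ht ⟨hj ▸ h₁ j, hj ▸ e₁ j⟩
      have a2 : (Finset.univ.filter fun j => t₂ j = t) = ∅ := by
        rw [Finset.filter_eq_empty_iff]
        intro j _ hj
        exact ht ⟨hj ▸ h₂ j, hj ▸ e₂ j⟩
      rw [a1, a2]
      rfl
  have hcard : ∀ t : Finset E, Nonempty ({a : {j // (t₁ j).Nonempty} // t₁ a.1 = t} ≃
      {a : {j // (t₂ j).Nonempty} // t₂ a.1 = t}) := by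
    intro t
    by_cases hn : t.Nonempty
    · have b1 : {a : {j // (t₁ j).Nonempty} // t₁ a.1 = t} ≃ {j // t₁ j = t} :=
        { toFun := fun a => ⟨a.1.1, a.2⟩
          invFun := fun j => ⟨⟨j.1, by rw [j.2]; exact hn⟩, j.2⟩
          left_inv := fun _ => rfl
          right_inv := fun _ => rfl }
      have b2 : {a : {j // (t₂ j).Nonempty} // t₂ a.1 = t} ≃ {j // t₂ j = t} :=
        { toFun := fun a => ⟨a.1.1, a.2⟩
          invFun := fun j => ⟨⟨j.1, by rw [j.2]; exact hn⟩, j.2⟩
          left_inv := fun _ => rfl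
          right_inv := fun _ => rfl }
      have b3 : Fintype.card {j // t₁ j = t} = Fintype.card {j // t₂ j = t} := by
        rw [Fintype.card_subtype, Fintype.card_subtype]
        exact key t hn
      exact ⟨b1.trans ((Fintype.equivOfCardEq b3).trans b2.symm)⟩
    · have b1 : IsEmpty {a : {j // (t₁ j).Nonempty} // t₁ a.1 = t} :=
        ⟨fun a => hn (a.2 ▸ a.1.2)⟩
      have b2 : IsEmpty {a : {j // (t₂ j).Nonempty} // t₂ a.1 = t} :=
        ⟨fun a => hn (a.2 ▸ a.1.2)⟩
      exact ⟨Equiv.equivOfIsEmpty _ _⟩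
  choose e _ using fun t => (hcard t).elim fun e => (⟨e, trivial⟩ : ∃ _ : _, True)
  exact ⟨Equiv.ofFiberEquiv e, fun j => Equiv.ofFiberEquiv_map e j⟩

end DBD
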