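import Mathlib

/-!
# Two families of even subsets of `B` with a tight element `e0`
-/

set_option autoImplicit false

namespace DBD

private theorem tight {E ι : Type} [DecidableEq E] [Fintype ι] (B : Finset E) (e0 : E)
    (t : ι → Finset E) (h : ∀ j, t j ⊆ B) (he : ∀ j, Even (t j).card)
    (ht : (Finset.univ.filter fun j => e0 ∈ t j).card =
      ∑ f ∈ B.erase e0, (Finset.univ.filter fun j => f ∈ t j).card) (j : ι) :
    ((t j).erase e0).card = if e0 ∈ t j then 1 else 0 := by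
  classical
  have h1 : ∑ f ∈ B.erase e0, (Finset.univ.filter fun j => f ∈ t j).card =
      ∑ j, ((t j).erase e0).card := by
    have h2 : ∀ f ∈ B.erase e0, (Finset.univ.filter fun j => f ∈ t j).card =
        ∑ j, if f ∈ t j then 1 else 0 := fun f _ => Finset.card_filter _ _
    rw [Finset.sum_congr rfl h2, Finset.sum_comm]
    refine Finset.sum_congr rfl fun j _ => ?_
    rw [← Finset.card_filter]
    congr 1
    ext x
    rw [Finset.mem_filter, Finset.mem_erase, Finset.mem_erase]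
    exact ⟨fun hx => ⟨hx.1.1, hx.2⟩, fun hx => ⟨⟨hx.1, h j hx.2⟩, hx.2⟩⟩
  have h3 : (Finset.univ.filter fun j => e0 ∈ t j).card = ∑ j, if e0 ∈ t j then 1 else 0 :=
    Finset.card_filter _ _
  have h4 : ∀ j ∈ (Finset.univ : Finset ι), (if e0 ∈ t j then 1 else 0) ≤ ((t j).erase e0).card := by
    intro j _
    split_ifs with h5
    · rw [Finset.card_erase_of_mem h5]
      have h6 : 0 < (t j).card := Finset.card_pos.2 ⟨e0, h5⟩
      obtain ⟨r, hr⟩ := he j
      omega
    · exact Nat.zero_le _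
  have h7 := (Finset.sum_eq_sum_iff_of_le h4).1 (by rw [← h3, ht, h1])
  exact (h7 j (Finset.mem_univ j)).symm

private theorem shape {E ι : Type} [DecidableEq E] (B : Finset E) (e0 : E)
    (t : ι → Finset E) (h : ∀ j, t j ⊆ B)
    (ht : ∀ j, ((t j).erase e0).card = if e0 ∈ t j then 1 else 0) :
    (∀ j, ∀ f ∈ B.erase e0, f ∈ t j → t j = {e0, f}) ∧
      ∀ j, (t j).Nonempty → ∃ f ∈ B.erase e0, t j = {e0, f} := by
  have h1 : ∀ j, ∀ f ∈ B.erase e0, f ∈ t j → t j = {e0, f} := by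
    intro j f hf hfj
    have hne : f ≠ e0 := (Finset.mem_erase.1 hf).1
    have h2 : f ∈ (t j).erase e0 := Finset.mem_erase.2 ⟨hne, hfj⟩
    have h3 : 0 < ((t j).erase e0).card := Finset.card_pos.2 ⟨f, h2⟩
    have h4 := ht j
    by_cases h5 : e0 ∈ t j
    · rw [if_pos h5] at h4
      obtain ⟨c, hc⟩ := Finset.card_eq_one.1 h4
      rw [hc, Finset.mem_singleton] at h2
      rw [← Finset.insert_erase h5, hc, h2]
    · rw [if_neg h5] at h4
      omega
  refine ⟨h1, fun j hj => ?_⟩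
  obtain ⟨x, hx⟩ := hj
  by_cases hxe : x = e0
  · subst hxe
    have h4 := ht j
    rw [if_pos hx] at h4
    obtain ⟨c, hc⟩ := Finset.card_eq_one.1 h4
    have hcm : c ∈ (t j).erase x := by rw [hc]; exact Finset.mem_singleton_self c
    have h6 := Finset.mem_erase.1 hcm
    have h7 : c ∈ B.erase x := Finset.mem_erase.2 ⟨h6.1, h j h6.2⟩
    exact ⟨c, h7, h1 j c h7 h6.2⟩
  · have h7 : x ∈ B.erase e0 := Finset.mem_erase.2 ⟨hxe, h j hx⟩
    exact ⟨x, h7, h1 j x h7 hx⟩

private def fib {E ι : Type} (t : ι → Finset E) (S : Finset E) (hS : S.Nonempty) :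
    {a : {j // (t j).Nonempty} // t a.1 = S} ≃ {j // t j = S} where
  toFun a := ⟨a.1.1, a.2⟩
  invFun j := ⟨⟨j.1, by rw [j.2]; exact hS⟩, j.2⟩
  left_inv _ := rfl
  right_inv _ := rfl

theorem match_tight {E ι₁ ι₂ : Type} [DecidableEq E] [Fintype ι₁] [Fintype ι₂] (B : Finset E)
    (e0 : E) (h0 : e0 ∈ B) (t₁ : ι₁ → Finset E) (t₂ : ι₂ → Finset E) (h₁ : ∀ j, t₁ j ⊆ B)
    (h₂ : ∀ j, t₂ j ⊆ B) (e₁ : ∀ j, Even (t₁ j).card) (e₂ : ∀ j, Even (t₂ j).card)
    (hc : ∀ e ∈ B, (Finset.univ.filter fun j => e ∈ t₁ j).card =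
      (Finset.univ.filter fun j => e ∈ t₂ j).card)
    (ht : (Finset.univ.filter fun j => e0 ∈ t₁ j).card =
      ∑ f ∈ B.erase e0, (Finset.univ.filter fun j => f ∈ t₁ j).card) :
    ∃ σ : {j // (t₁ j).Nonempty} ≃ {j // (t₂ j).Nonempty}, ∀ j, t₂ (σ j).1 = t₁ j.1 := by
  classical
  have ht2 : (Finset.univ.filter fun j => e0 ∈ t₂ j).card =
      ∑ f ∈ B.erase e0, (Finset.univ.filter fun j => f ∈ t₂ j).card := by
    rw [← hc e0 h0, ht]
    exact Finset.sum_congr rfl fun f hf => hc f (Finset.mem_of_mem_erase hf)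
  obtain ⟨a1, b1⟩ := shape B e0 t₁ h₁ (tight B e0 t₁ h₁ e₁ ht)
  obtain ⟨a2, b2⟩ := shape B e0 t₂ h₂ (tight B e0 t₂ h₂ e₂ ht2)
  have key : ∀ S : Finset E, S.Nonempty → Fintype.card {j // t₁ j = S} = Fintype.card {j // t₂ j = S} := by
    intro S hS
    rw [Fintype.card_subtype, Fintype.card_subtype]
    by_cases hf : ∃ f ∈ B.erase e0, S = {e0, f}
    · obtain ⟨f, hfB, rfl⟩ := hf
      have g1 : (Finset.univ.filter fun j => t₁ j = {e0, f}) = Finset.univ.filter fun j => f ∈ t₁ j := by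
        ext j
        rw [Finset.mem_filter, Finset.mem_filter]
        refine ⟨fun hj => ⟨hj.1, ?_⟩, fun hj => ⟨hj.1, a1 j f hfB hj.2⟩⟩
        rw [hj.2]
        exact Finset.mem_insert_of_mem (Finset.mem_singleton_self f)
      have g2 : (Finset.univ.filter fun j => t₂ j = {e0, f}) = Finset.univ.filter fun j => f ∈ t₂ j := by
        ext j
        rw [Finset.mem_filter, Finset.mem_filter]
        refine ⟨fun hj => ⟨hj.1, ?_⟩, fun hj => ⟨hj.1, a2 j f hfB hj.2⟩⟩
        rw [hj.2]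
        exact Finset.mem_insert_of_mem (Finset.mem_singleton_self f)
      rw [g1, g2]
      exact hc f (Finset.mem_of_mem_erase hfB)
    · have g1 : (Finset.univ.filter fun j => t₁ j = S) = ∅ := by
        refine Finset.filter_eq_empty_iff.2 fun j _ hj => hf ?_
        obtain ⟨f, hfB, hff⟩ := b1 j (by rw [hj]; exact hS)
        exact ⟨f, hfB, by rw [← hj, hff]⟩
      have g2 : (Finset.univ.filter fun j => t₂ j = S) = ∅ := by
        refine Finset.filter_eq_empty_iff.2 fun j _ hj => hf ?_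
        obtain ⟨f, hfB, hff⟩ := b2 j (by rw [hj]; exact hS)
        exact ⟨f, hfB, by rw [← hj, hff]⟩
      rw [g1, g2, Finset.card_empty, Finset.card_empty]
  have e : ∀ S : Finset E, Nonempty ({a : {j // (t₁ j).Nonempty} // t₁ a.1 = S} ≃
      {b : {j // (t₂ j).Nonempty} // t₂ b.1 = S}) := by
    intro S
    by_cases hS : S.Nonempty
    · exact ⟨((fib t₁ S hS).trans (Fintype.equivOfCardEq (key S hS))).trans (fib t₂ S hS).symm⟩
    · have i1 : IsEmpty {a : {j // (t₁ j).Nonempty} // t₁ a.1 = S} :=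
        ⟨fun a => hS (by rw [← a.2]; exact a.1.2)⟩
      have i2 : IsEmpty {b : {j // (t₂ j).Nonempty} // t₂ b.1 = S} :=
        ⟨fun a => hS (by rw [← a.2]; exact a.1.2)⟩
      exact ⟨Equiv.equivOfIsEmpty _ _⟩
  let e' := fun S => Classical.choice (e S)
  refine ⟨Equiv.ofFiberEquiv (f := fun a : {j // (t₁ j).Nonempty} => t₁ a.1)
    (g := fun b : {j // (t₂ j).Nonempty} => t₂ b.1) e', fun j => ?_⟩
  exact Equiv.ofFiberEquiv_map e' j

end DBD
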