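import Pool.Agent.Lib.MP_dba578_co.DBD.Contract
import Pool.Agent.Lib.MP_dba578_co.DBD.Match
import Pool.Agent.Lib.MP_dba578_co.DBD.MatchTight

/-!
# Cuts with at most 3 edges, and tight cuts
-/

set_option autoImplicit false

namespace DBD

open DBA

variable {V E : Type} [Fintype V] [DecidableEq V] [Fintype E] [DecidableEq E]

omit [Fintype V] [Fintype E] [DecidableEq E] in
private lemma gd_zero (a b : E → V) (e : E) (v : V) (h1 : a e ≠ v) (h2 : b e ≠ v) :
    gd a b e v = 0 := by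
  unfold gd
  rw [Pi.add_apply, Pi.single_eq_of_ne h1.symm, Pi.single_eq_of_ne h2.symm, add_zero]

private lemma glue_even (a b : E → V) (X : Finset V) (D₁ D₂ : Finset E)
    (hD : D₂ ∩ cut a b X = D₁ ∩ cut a b X)
    (h1 : ∀ e ∈ D₁, ¬ (a e ∉ X ∧ b e ∉ X)) (h1' : ∀ v, v ∈ X → (∑ e ∈ D₁, gd a b e) v = 0)
    (h2 : ∀ e ∈ D₂, ¬ (a e ∈ X ∧ b e ∈ X)) (h2' : ∀ v, v ∉ X → (∑ e ∈ D₂, gd a b e) v = 0) :
    ∑ e ∈ D₁ ∪ D₂, gd a b e = 0 := by
  funext v
  have hmem : ∀ e, e ∈ D₂ → e ∉ D₁ → e ∉ cut a b X := by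
    intro e he he' hc
    exact he' (Finset.mem_inter.1 (hD ▸ Finset.mem_inter.2 ⟨he, hc⟩)).1
  have hmem' : ∀ e, e ∈ D₁ → e ∉ D₂ → e ∉ cut a b X := by
    intro e he he' hc
    exact he' (Finset.mem_inter.1 (hD.symm ▸ Finset.mem_inter.2 ⟨he, hc⟩)).1
  have hcut : ∀ e, e ∉ cut a b X → (a e ∈ X ↔ b e ∈ X) := by
    intro e he
    by_contra h
    exact he (Finset.mem_filter.2 ⟨Finset.mem_univ _, h⟩)
  by_cases hv : v ∈ X
  · have hs : ∑ e ∈ D₁ ∪ D₂, gd a b e v = ∑ e ∈ D₁, gd a b e v := by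
      symm
      refine Finset.sum_subset Finset.subset_union_left fun e he he' => ?_
      have he2 : e ∈ D₂ := (Finset.mem_union.1 he).resolve_left he'
      have h3 := hcut e (hmem e he2 he')
      have h4 := h2 e he2
      have h5 : a e ∉ X := fun h => h4 ⟨h, h3.1 h⟩
      have h6 : b e ∉ X := fun h => h4 ⟨h3.2 h, h⟩
      exact gd_zero a b e v (fun h => h5 (h ▸ hv)) (fun h => h6 (h ▸ hv))
    have := h1' v hv
    rw [Finset.sum_apply] at this ⊢
    rw [hs, this]; rfl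
  · have hs : ∑ e ∈ D₁ ∪ D₂, gd a b e v = ∑ e ∈ D₂, gd a b e v := by
      symm
      refine Finset.sum_subset Finset.subset_union_right fun e he he' => ?_
      have he2 : e ∈ D₁ := (Finset.mem_union.1 he).resolve_right he'
      have h3 := hcut e (hmem' e he2 he')
      have h4 := h1 e he2
      have h5 : a e ∈ X := by
        by_contra h
        exact h4 ⟨h, fun h' => h (h3.2 h')⟩
      have h6 : b e ∈ X := h3.1 h5
      exact gd_zero a b e v (fun h => hv (h ▸ h5)) (fun h => hv (h ▸ h6))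
    have := h2' v hv
    rw [Finset.sum_apply] at this ⊢
    rw [hs, this]; rfl

private lemma cut_compl' (a b : E → V) (X : Finset V) : cut a b Xᶜ = cut a b X := by
  ext e
  simp only [cut, Finset.mem_filter, Finset.mem_univ, true_and, Finset.mem_compl]
  tauto

theorem sumEven_of_cut {Q : ℕ → Prop} (a b : E → V) (x : E → ℕ)
    (hIH : IH Q (L1 a b) (L2 a b)) (hx : ∀ e, Q (x e))
    (hA : Adm a b x) (h3 : ∀ v, deg a b Finset.univ v = 3) (X : Finset V)
    (hX : (cut a b X).card - 3 + 1 < X.card) (hX' : (cut a b X).card - 3 + 1 < Xᶜ.card)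
    (hc : (cut a b X).card ≤ 3 ∨
      ∃ e0 ∈ cut a b X, x e0 = ∑ f ∈ (cut a b X).erase e0, x f) : SumEven a b x := by
  classical
  obtain ⟨ι₂, F₂, C₂, a2, b2, c2, d2⟩ := contract a b x hIH hx hA h3 X hX
  obtain ⟨ι₁, F₁, C₁, a1, b1, c1, d1⟩ := contract a b x hIH hx hA h3 Xᶜ
    (by rw [cut_compl']; exact hX')
  simp only [cut_compl', Finset.mem_compl, not_not] at a1 b1 c1 d1
  have hin : ∀ (j : ι₂) (e : E), e ∈ C₂ j → ¬ (a e ∉ X ∧ b e ∉ X) → e ∈ cut a b X := by
    intro j e he h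
    have := a2 j e he
    refine Finset.mem_filter.2 ⟨Finset.mem_univ _, ?_⟩
    tauto
  have hc1 : ∀ e ∈ cut a b X, (Finset.univ.filter fun j => e ∈ C₁ j ∩ cut a b X).card = x e := by
    intro e he
    have he' := (Finset.mem_filter.1 he).2
    have e1 := d1 e (by tauto)
    simp only [Finset.mem_inter, he, and_true]
    rw [← e1]
  have hc2 : ∀ e ∈ cut a b X, (Finset.univ.filter fun j => e ∈ C₂ j ∩ cut a b X).card = x e := by
    intro e he
    have he' := (Finset.mem_filter.1 he).2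
    have e2 := d2 e (by tauto)
    simp only [Finset.mem_inter, he, and_true]
    rw [← e2]
  obtain ⟨σ, hσ⟩ : ∃ σ : {j // (C₁ j ∩ cut a b X).Nonempty} ≃ {j // (C₂ j ∩ cut a b X).Nonempty},
      ∀ j, C₂ (σ j).1 ∩ cut a b X = C₁ j.1 ∩ cut a b X := by
    rcases hc with hc | ⟨e0, he0, ht⟩
    · exact match_fam (cut a b X) hc (fun j => C₁ j ∩ cut a b X) (fun j => C₂ j ∩ cut a b X)
        (fun j => Finset.inter_subset_right) (fun j => Finset.inter_subset_right) c1 c2
        (fun e he => (hc1 e he).trans (hc2 e he).symm)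
    · exact match_tight (cut a b X) e0 he0 (fun j => C₁ j ∩ cut a b X)
        (fun j => C₂ j ∩ cut a b X)
        (fun j => Finset.inter_subset_right) (fun j => Finset.inter_subset_right) c1 c2
        (fun e he => (hc1 e he).trans (hc2 e he).symm) (by
          rw [hc1 e0 he0, ht]
          exact Finset.sum_congr rfl fun f hf => (hc1 f (Finset.mem_of_mem_erase hf)).symm)
  refine ⟨{j // (C₁ j ∩ cut a b X).Nonempty} ⊕ ({j // ¬ (C₁ j ∩ cut a b X).Nonempty} ⊕
    {j // ¬ (C₂ j ∩ cut a b X).Nonempty}), inferInstance,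
    Sum.elim (fun j => C₁ j.1 ∪ C₂ (σ j).1) (Sum.elim (fun j => C₁ j.1) (fun j => C₂ j.1)), ?_, ?_⟩
  · rintro (j | j | j)
    · exact glue_even a b X (C₁ j.1) (C₂ (σ j).1) (hσ j) (a1 j.1) (b1 j.1) (a2 _) (b2 _)
    · have hj : C₁ j.1 ∩ cut a b X = ∅ := Finset.not_nonempty_iff_eq_empty.1 j.2
      have := glue_even a b X (C₁ j.1) ∅ (by rw [hj, Finset.empty_inter]) (a1 j.1) (b1 j.1)
        (by simp) (by simp)
      rwa [Finset.union_empty] at this
    · have hj : C₂ j.1 ∩ cut a b X = ∅ := Finset.not_nonempty_iff_eq_empty.1 j.2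
      have := glue_even a b X ∅ (C₂ j.1) (by rw [hj, Finset.empty_inter]) (by simp) (by simp)
        (a2 j.1) (b2 j.1)
      rwa [Finset.empty_union] at this
  · intro e
    rw [Finset.card_filter, Fintype.sum_sum_type, Fintype.sum_sum_type]
    change x e = (∑ j : {j // (C₁ j ∩ cut a b X).Nonempty},
        (if e ∈ C₁ j.1 ∪ C₂ (σ j).1 then 1 else 0)) +
      ((∑ j : {j // ¬ (C₁ j ∩ cut a b X).Nonempty}, (if e ∈ C₁ j.1 then 1 else 0)) +
        ∑ j : {j // ¬ (C₂ j ∩ cut a b X).Nonempty}, (if e ∈ C₂ j.1 then 1 else 0))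
    by_cases he : a e ∉ X ∧ b e ∉ X
    · have n1 : ∀ j, e ∉ C₁ j := fun j h => a1 j e h he
      have s1 : ∑ j : {j // (C₁ j ∩ cut a b X).Nonempty}, (if e ∈ C₁ j.1 ∪ C₂ (σ j).1 then 1 else 0) =
          ∑ j : {j // (C₂ j ∩ cut a b X).Nonempty}, (if e ∈ C₂ j.1 then 1 else 0) := by
        rw [← Equiv.sum_comp σ]
        refine Finset.sum_congr rfl fun j _ => ?_
        simp [n1]
      have s2 : ∑ j : {j // ¬ (C₁ j ∩ cut a b X).Nonempty}, (if e ∈ C₁ j.1 then 1 else 0) = 0 :=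
        Finset.sum_eq_zero fun j _ => if_neg (n1 j.1)
      rw [s1, s2, zero_add, Fintype.sum_subtype_add_sum_subtype
        (fun j => (C₂ j ∩ cut a b X).Nonempty) (fun j => if e ∈ C₂ j then 1 else 0),
        ← Finset.card_filter]
      exact d2 e (by tauto)
    · have s1 : ∑ j : {j // (C₁ j ∩ cut a b X).Nonempty}, (if e ∈ C₁ j.1 ∪ C₂ (σ j).1 then 1 else 0) =
          ∑ j : {j // (C₁ j ∩ cut a b X).Nonempty}, (if e ∈ C₁ j.1 then 1 else 0) := by
        refine Finset.sum_congr rfl fun j _ => ?_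
        have : e ∈ C₂ (σ j).1 → e ∈ C₁ j.1 := fun h =>
          (Finset.mem_inter.1 ((hσ j) ▸ Finset.mem_inter.2 ⟨h, hin _ e h he⟩)).1
        by_cases h1 : e ∈ C₁ j.1
        · simp [h1]
        · have h2 : e ∉ C₂ (σ j).1 := fun h => h1 (this h)
          simp [h1, h2]
      have s2 : ∑ j : {j // ¬ (C₂ j ∩ cut a b X).Nonempty}, (if e ∈ C₂ j.1 then 1 else 0) = 0 :=
        Finset.sum_eq_zero fun j _ => if_neg fun h =>
          j.2 ⟨e, Finset.mem_inter.2 ⟨h, hin _ e h he⟩⟩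
      rw [s1, s2, add_zero, Fintype.sum_subtype_add_sum_subtype
        (fun j => (C₁ j ∩ cut a b X).Nonempty) (fun j => if e ∈ C₁ j then 1 else 0),
        ← Finset.card_filter]
      exact d1 e he

end DBD
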