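import Pool.Agent.Lib.MP_dba578_co.DBD.Push

/-!
# Board DBD, module Iso: a vertex of degree 0
-/

set_option autoImplicit false

namespace DBD

open DBA

variable {V E : Type} [Fintype V] [DecidableEq V] [Fintype E] [DecidableEq E]

theorem sumEven_of_iso {Q : ℕ → Prop} (a b : E → V) (x : E → ℕ)
    (hIH : IH Q (L1 a b) (L2 a b)) (hx : ∀ e, Q (x e))
    (hA : Adm a b x) (v : V) (hv : deg a b Finset.univ v = 0) : SumEven a b x := by
  have hnv : ∀ e, a e ≠ v ∧ b e ≠ v := by
    intro e
    unfold deg at hv
    rw [Nat.add_eq_zero_iff, Finset.card_eq_zero, Finset.card_eq_zero,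
      Finset.filter_eq_empty_iff, Finset.filter_eq_empty_iff] at hv
    exact ⟨hv.1 (Finset.mem_univ e), hv.2 (Finset.mem_univ e)⟩
  by_cases hw : ∃ w0, w0 ≠ v
  · obtain ⟨w0, hw0⟩ := hw
    obtain ⟨g, hg⟩ : ∃ g : V → {w // w ≠ v}, g = fun w => if h : w ≠ v then ⟨w, h⟩ else ⟨w0, hw0⟩ :=
      ⟨_, rfl⟩
    have hgs : ∀ u, u ≠ v → ∀ w : {w // w ≠ v}, (g u = w ↔ u = w.1) := by
      intro u hu w
      rw [hg]
      simp only [dif_pos hu, Subtype.ext_iff]
    have hadm := adm_pull a b x hA g (fun _ => True) (fun e he => absurd trivial he)
    have hdeg : ∀ (C : Finset {e : E // True}) (w : {w // w ≠ v}),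
        deg (fun e : {e : E // True} => g (a e)) (fun e : {e : E // True} => g (b e)) C w =
          deg a b (C.map (Function.Embedding.subtype _)) w.1 := by
      intro C w
      unfold deg
      rw [Finset.filter_map, Finset.filter_map, Finset.card_map, Finset.card_map]
      congr 1
      · congr 1
        apply Finset.filter_congr
        intro e _
        exact hgs _ (hnv e.1).1 w
      · congr 1
        apply Finset.filter_congr
        intro e _
        exact hgs _ (hnv e.1).2 w
    have hmu : L1 (fun e : {e : E // True} => g (a e)) (fun e : {e : E // True} => g (b e)) <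
        L1 a b := by
      unfold L1
      have s1 : ∑ w : {w // w ≠ v}, (deg (fun e : {e : E // True} => g (a e))
          (fun e : {e : E // True} => g (b e)) Finset.univ w - 3) ≤
          ∑ w, (deg a b Finset.univ w - 3) := by
        rw [← Fintype.sum_subtype_add_sum_subtype (fun w => w ≠ v)
          (fun w => deg a b Finset.univ w - 3)]
        refine le_trans (Finset.sum_le_sum fun w _ => ?_) (Nat.le_add_right _ _)
        apply Nat.sub_le_sub_right
        rw [hdeg]
        unfold deg
        apply Nat.add_le_add
        · exact Finset.card_le_card (Finset.filter_subset_filter _ (Finset.subset_univ _))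
        · exact Finset.card_le_card (Finset.filter_subset_filter _ (Finset.subset_univ _))
      have s3 : Fintype.card {w // w ≠ v} < Fintype.card V :=
        Fintype.card_subtype_lt (x := v) (by simp)
      omega
    obtain ⟨ι, _, C', hC', hx'⟩ := hIH _ _ _ _ _ (Or.inl hmu) (fun e => hx e.1) hadm
    refine ⟨ι, inferInstance, fun j => (C' j).map (Function.Embedding.subtype _), ?_, ?_⟩
    · intro j
      funext w
      rw [sum_gd_apply, Pi.zero_apply]
      by_cases h : w = v
      · have h1 : deg a b ((C' j).map (Function.Embedding.subtype _)) w = 0 := by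
          rw [h]
          apply Nat.le_zero.1
          rw [← hv]
          unfold deg
          apply Nat.add_le_add
          · exact Finset.card_le_card (Finset.filter_subset_filter _ (Finset.subset_univ _))
          · exact Finset.card_le_card (Finset.filter_subset_filter _ (Finset.subset_univ _))
        rw [h1]
        rfl
      · have h1 := congrFun (hC' j) ⟨w, h⟩
        rw [sum_gd_apply, hdeg, Pi.zero_apply] at h1
        exact h1
    · intro e
      refine (hx' ⟨e, trivial⟩).trans ?_
      congr 1
      ext j
      simp only [Finset.mem_filter, Finset.mem_univ, true_and, Finset.mem_map,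
        Function.Embedding.subtype_apply]
      constructor
      · intro h
        exact ⟨_, h, rfl⟩
      · rintro ⟨e', h, rfl⟩
        exact h
  · push Not at hw
    refine ⟨Empty, inferInstance, fun j => j.elim, fun j => j.elim, fun e => ?_⟩
    exact absurd (hw (a e)) (hnv e).1

end DBD
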