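import Pool.Agent.Lib.MP_dba578_co.DBD.Push

/-!
# Board DBD, module Loop: loops
-/

set_option autoImplicit false

namespace DBD

open DBA

variable {V E : Type} [Fintype V] [DecidableEq V] [Fintype E] [DecidableEq E]

private theorem loop_mu (a b : E → V) (e0 : E) :
    L1 (fun e : {e // e ≠ e0} => a e) (fun e : {e // e ≠ e0} => b e) ≤ L1 a b ∧
      L2 (fun e : {e // e ≠ e0} => a e) (fun e : {e // e ≠ e0} => b e) < L2 a b := by
  have h1 : ∀ c : E → V, ∀ v, (Finset.univ.filter fun e : {e // e ≠ e0} => c e = v).card ≤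
      (Finset.univ.filter fun e : E => c e = v).card := by
    intro c v
    refine Finset.card_le_card_of_injOn (fun e => (e : E)) ?_ Subtype.val_injective.injOn
    intro e he
    simp only [Finset.coe_filter, Finset.mem_univ, true_and, Set.mem_ofPred_eq] at he ⊢
    exact he
  have h2 : ∀ v, deg (fun e : {e // e ≠ e0} => a e) (fun e : {e // e ≠ e0} => b e) Finset.univ v ≤
      deg a b Finset.univ v := fun v => Nat.add_le_add (h1 a v) (h1 b v)
  have h3 : Fintype.card {e // e ≠ e0} < Fintype.card E :=
    Fintype.card_subtype_lt (x := e0) (by simp)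
  have h4 : ∑ v, (deg (fun e : {e // e ≠ e0} => a e) (fun e : {e // e ≠ e0} => b e)
      Finset.univ v - 3) ≤ ∑ v, (deg a b Finset.univ v - 3) :=
    Finset.sum_le_sum fun v _ => Nat.sub_le_sub_right (h2 v) 3
  unfold L1 L2
  omega

theorem sumEven_of_loop {Q : ℕ → Prop} (a b : E → V) (x : E → ℕ)
    (hIH : IH Q (L1 a b) (L2 a b)) (hx : ∀ e, Q (x e))
    (hA : Adm a b x) (e0 : E) (h0 : a e0 = b e0) : SumEven a b x := by
  have hA' : Adm (fun e : {e // e ≠ e0} => a e) (fun e : {e // e ≠ e0} => b e)
      (fun e : {e // e ≠ e0} => x e) := by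
    refine adm_pull a b x hA id (fun e => e ≠ e0) fun e he => Or.inl ?_
    have h1 : e = e0 := not_not.1 he
    rw [h1]
    exact h0
  obtain ⟨ι, hι, C, hC1, hC2⟩ := hIH V {e // e ≠ e0} (fun e => a e) (fun e => b e) (fun e => x e)
    (Or.inr (loop_mu a b e0)) (fun e => hx e) hA'
  refine ⟨ι ⊕ Fin (x e0), inferInstance, Sum.elim
    (fun j => (C j).map (Function.Embedding.subtype fun e => e ≠ e0)) (fun _ => {e0}), ?_, ?_⟩
  · rintro (j | j)
    · rw [Sum.elim_inl, ← sum_sub]
      exact hC1 j
    · rw [Sum.elim_inr, Finset.sum_singleton]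
      funext w
      rw [gd, ← h0]
      exact CharTwo.add_self_eq_zero _
  · intro e
    rw [Finset.card_filter, Fintype.sum_sum_type]
    simp only [Sum.elim_inl, Sum.elim_inr]
    by_cases he : e = e0
    · subst he
      have h1 : ∀ j, e ∉ (C j).map (Function.Embedding.subtype fun f => f ≠ e) := by
        intro j hj
        obtain ⟨f, -, hf⟩ := Finset.mem_map.1 hj
        exact f.2 hf
      simp [h1]
    · have h2 : ∀ j, (e ∈ (C j).map (Function.Embedding.subtype fun f => f ≠ e0)) ↔
          (⟨e, he⟩ : {e // e ≠ e0}) ∈ C j := by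
        intro j
        rw [Finset.mem_map]
        constructor
        · rintro ⟨f, hf, hfe⟩
          have h3 : f = ⟨e, he⟩ := Subtype.ext hfe
          rwa [h3] at hf
        · intro h
          exact ⟨_, h, rfl⟩
      have h4 := hC2 ⟨e, he⟩
      rw [Finset.card_filter] at h4
      simp only [h2, Finset.mem_singleton, he, if_false, Finset.sum_const_zero, add_zero]
      exact h4

end DBD
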