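import Pool.Agent.Lib.MP_dba578_co.DBD.Push

/-! # Board DBD, module One: a vertex of degree 1 -/

set_option autoImplicit false

namespace DBD

open DBA

variable {V E : Type} [Fintype V] [DecidableEq V] [Fintype E] [DecidableEq E]

theorem zero_of_one (a b : E → V) (x : E → ℕ) (hA : Adm a b x) (hl : ∀ e, a e ≠ b e) (v : V)
    (hv : deg a b Finset.univ v = 1) : ∃ e, x e = 0 := by
  have h1 : cut a b {v} =
      Finset.univ.filter (fun e => a e = v) ∪ Finset.univ.filter (fun e => b e = v) := by
    ext e
    simp only [cut, Finset.mem_filter, Finset.mem_univ, true_and, Finset.mem_singleton,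
      Finset.mem_union]
    constructor
    · intro h
      by_contra hc
      push Not at hc
      exact h ⟨fun h' => absurd h' hc.1, fun h' => absurd h' hc.2⟩
    · rintro (h | h) hc
      · exact hl e (h.trans (hc.1 h).symm)
      · exact hl e ((hc.2 h).trans h.symm)
  have h2 : (cut a b {v}).card = 1 := by
    rw [h1, Finset.card_union_of_disjoint]
    · exact hv
    · rw [Finset.disjoint_left]
      intro e he he'
      rw [Finset.mem_filter] at he he'
      exact hl e (he.2.trans he'.2.symm)
  obtain ⟨e, he⟩ := Finset.card_eq_one.1 h2
  refine ⟨e, ?_⟩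
  have h3 := hA {v} e (by rw [he]; exact Finset.mem_singleton_self e)
  rw [he, Finset.erase_singleton, Finset.sum_empty] at h3
  exact Nat.le_zero.1 h3

end DBD
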