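import Pool.Agent.Lib.MP_dba578_co.DBD.SplitDefs

/-!
# Board DBD, module SplitAdm: the weight of the new edge
-/

set_option autoImplicit false

namespace DBD

open DBA

variable {V E : Type} [Fintype V] [DecidableEq V] [Fintype E] [DecidableEq E]

private theorem mem_cut {V E : Type} [Fintype E] [DecidableEq V] (a b : E → V) (X : Finset V) (e : E) :
    e ∈ cut a b X ↔ ¬ (a e ∈ X ↔ b e ∈ X) := by
  simp only [cut, Finset.mem_filter, Finset.mem_univ, true_and]

/-- the weight of the old edges of a cut of the split graph -/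
private def cc (a b : E → V) (v : V) (e1 e2 : E) (x : E → ℕ) (X : Finset (Option V)) : ℕ :=
  ∑ e : E, if some e ∈ cut (sa a v e1 e2) (sb b v e1 e2) X then x e else 0

private theorem total (a b : E → V) (v : V) (e1 e2 : E) (x : E → ℕ) (w : ℕ)
    (X : Finset (Option V)) : ∑ f ∈ cut (sa a v e1 e2) (sb b v e1 e2) X, sx x w f =
      (if none ∈ cut (sa a v e1 e2) (sb b v e1 e2) X then w else 0) + cc a b v e1 e2 x X := by
  have h1 : ∑ f ∈ cut (sa a v e1 e2) (sb b v e1 e2) X, sx x w f =
      ∑ f : Option E, if f ∈ cut (sa a v e1 e2) (sb b v e1 e2) X then sx x w f else 0 := by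
    rw [← Finset.sum_filter]
    congr 1
    ext f
    simp
  rw [h1, Fintype.sum_option]
  rfl

private theorem single (a b : E → V) (v : V) (e1 e2 : E) (x : E → ℕ) (X : Finset (Option V)) (e : E)
    (he : some e ∈ cut (sa a v e1 e2) (sb b v e1 e2) X) : x e ≤ cc a b v e1 e2 x X := by
  unfold cc
  calc x e = if some e ∈ cut (sa a v e1 e2) (sb b v e1 e2) X then x e else 0 := (if_pos he).symm
    _ ≤ _ := Finset.single_le_sum
      (f := fun e => if some e ∈ cut (sa a v e1 e2) (sb b v e1 e2) X then x e else 0)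
      (fun _ _ => Nat.zero_le _) (Finset.mem_univ e)

private theorem old (a b : E → V) (x : E → ℕ) (hA : Adm a b x) (v : V) (e1 e2 : E)
    (X : Finset (Option V)) (hX : none ∈ X ↔ some v ∈ X) (e : E)
    (he : some e ∈ cut (sa a v e1 e2) (sb b v e1 e2) X) : 2 * x e ≤ cc a b v e1 e2 x X := by
  obtain ⟨Y, hY⟩ : ∃ Y : Finset V, Y = Finset.univ.filter fun u => some u ∈ X := ⟨_, rfl⟩
  have hmY : ∀ u, u ∈ Y ↔ some u ∈ X := by
    intro u
    rw [hY]
    simp
  have hmv : ∀ (c : E → V) (f : E), mv c v e1 e2 f ∈ X ↔ c f ∈ Y := by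
    intro c f
    unfold mv
    rw [hmY]
    split_ifs with h
    · rw [h.2]
      exact hX
    · exact Iff.rfl
  have hcut : ∀ f : E, some f ∈ cut (sa a v e1 e2) (sb b v e1 e2) X ↔ f ∈ cut a b Y := by
    intro f
    rw [mem_cut, mem_cut]
    show ¬ (mv a v e1 e2 f ∈ X ↔ mv b v e1 e2 f ∈ X) ↔ _
    rw [hmv, hmv]
  have h1 := hA Y e ((hcut e).1 he)
  have h2 := Finset.add_sum_erase (cut a b Y) x ((hcut e).1 he)
  have h3 : cc a b v e1 e2 x X = ∑ f ∈ cut a b Y, x f := by
    unfold cc
    rw [← Finset.sum_filter]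
    congr 1
    ext f
    simp [hcut]
  rw [h3]
  omega

private theorem cut_compl' (a b : E → V) (v : V) (e1 e2 : E) (X : Finset (Option V)) :
    cut (sa a v e1 e2) (sb b v e1 e2) Xᶜ = cut (sa a v e1 e2) (sb b v e1 e2) X := by
  ext e
  rw [mem_cut, mem_cut, Finset.mem_compl, Finset.mem_compl]
  tauto

private theorem symm_le (a b : E → V) (v : V) (e1 e2 : E) (x : E → ℕ) (X Y Z : Finset (Option V))
    (hZ : ∀ u, u ∈ Z ↔ ¬ (u ∈ X ↔ u ∈ Y)) :
    cc a b v e1 e2 x Z ≤ cc a b v e1 e2 x X + cc a b v e1 e2 x Y := by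
  unfold cc
  rw [← Finset.sum_add_distrib]
  refine Finset.sum_le_sum fun e _ => ?_
  by_cases h1 : some e ∈ cut (sa a v e1 e2) (sb b v e1 e2) X
  · rw [if_pos h1]
    split_ifs <;> omega
  · by_cases h2 : some e ∈ cut (sa a v e1 e2) (sb b v e1 e2) Y
    · rw [if_pos h2]
      split_ifs <;> omega
    · have h3 : some e ∉ cut (sa a v e1 e2) (sb b v e1 e2) Z := by
        rw [mem_cut] at h1 h2 ⊢
        rw [hZ, hZ]
        tauto
      rw [if_neg h3]
      exact Nat.zero_le _

theorem split_adm (a b : E → V) (x : E → ℕ) (hx : ∀ e, Even (x e)) (hA : Adm a b x) (v : V)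
    (e1 e2 : E) : ∃ w : ℕ, Even w ∧ Adm (sa a v e1 e2) (sb b v e1 e2) (sx x w) := by
  obtain ⟨X0, hX0, hmin⟩ := Finset.exists_min_image
    (Finset.univ.filter fun X : Finset (Option V) => none ∈ X ∧ some v ∉ X) (cc a b v e1 e2 x)
    ⟨{none}, by simp⟩
  rw [Finset.mem_filter] at hX0
  refine ⟨cc a b v e1 e2 x X0, ?_, ?_⟩
  · unfold cc
    refine Finset.even_sum _ fun e _ => ?_
    split_ifs
    · exact hx e
    · exact Even.zero
  · intro X f hf
    obtain ⟨w, hw⟩ : ∃ w, w = cc a b v e1 e2 x X0 := ⟨_, rfl⟩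
    rw [← hw]
    have h1 := Finset.add_sum_erase _ (sx x w) hf
    have h2 := total a b v e1 e2 x w X
    suffices h3 : 2 * sx x w f ≤ ∑ f ∈ cut (sa a v e1 e2) (sb b v e1 e2) X, sx x w f by omega
    rw [h2]
    by_cases hn : none ∈ cut (sa a v e1 e2) (sb b v e1 e2) X
    · rw [if_pos hn]
      obtain ⟨X1, h4, h5, h6⟩ : ∃ X1 : Finset (Option V), none ∈ X1 ∧ some v ∉ X1 ∧
          cut (sa a v e1 e2) (sb b v e1 e2) X1 = cut (sa a v e1 e2) (sb b v e1 e2) X := by
        have h7 : ¬ (none ∈ X ↔ some v ∈ X) := (mem_cut _ _ _ _).1 hn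
        by_cases h8 : none ∈ X
        · exact ⟨X, h8, fun h9 => h7 ⟨fun _ => h9, fun _ => h8⟩, rfl⟩
        · refine ⟨Xᶜ, Finset.mem_compl.2 h8, fun h9 => ?_, cut_compl' a b v e1 e2 X⟩
          rw [Finset.mem_compl] at h9
          exact h7 ⟨fun h => absurd h h8, fun h => absurd h h9⟩
      have h7 : cc a b v e1 e2 x X1 = cc a b v e1 e2 x X := by
        unfold cc
        rw [h6]
      have h8 : w ≤ cc a b v e1 e2 x X := by
        rw [hw, ← h7]
        exact hmin X1 (Finset.mem_filter.2 ⟨Finset.mem_univ _, h4, h5⟩)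
      cases f with
      | none =>
        show 2 * w ≤ _
        omega
      | some e =>
        show 2 * x e ≤ _
        by_cases h9 : some e ∈ cut (sa a v e1 e2) (sb b v e1 e2) X0
        · have h10 := single a b v e1 e2 x X0 e h9
          have h11 := single a b v e1 e2 x X e hf
          omega
        · obtain ⟨Z, hZ⟩ : ∃ Z : Finset (Option V), Z =
              Finset.univ.filter fun u => ¬ (u ∈ X1 ↔ u ∈ X0) := ⟨_, rfl⟩
          have hmZ : ∀ u, u ∈ Z ↔ ¬ (u ∈ X1 ↔ u ∈ X0) := by
            intro u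
            rw [hZ]
            simp only [Finset.mem_filter, Finset.mem_univ, true_and]
          have h10 := symm_le a b v e1 e2 x X1 X0 Z hmZ
          have h11 : some e ∈ cut (sa a v e1 e2) (sb b v e1 e2) Z := by
            have h12 : some e ∈ cut (sa a v e1 e2) (sb b v e1 e2) X1 := by
              rw [h6]
              exact hf
            rw [mem_cut] at h9 h12 ⊢
            rw [hmZ, hmZ]
            tauto
          have h12 : none ∈ Z ↔ some v ∈ Z := by
            rw [hmZ, hmZ]
            have := hX0.2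
            tauto
          have h13 := old a b x hA v e1 e2 Z h12 e h11
          omega
    · rw [if_neg hn, zero_add]
      cases f with
      | none => exact absurd hf hn
      | some e =>
        refine old a b x hA v e1 e2 X ?_ e hf
        have h7 := mt (mem_cut (sa a v e1 e2) (sb b v e1 e2) X none).2 hn
        exact not_not.1 h7

end DBD
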