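import Pool.Agent.Lib.MP_dba578_co.DBD.SplitDefs

/-!
# Board DBD, module SplitForget: the new edge can be forgotten
-/

set_option autoImplicit false

namespace DBD

open DBA

variable {V E : Type} [Fintype V] [DecidableEq V] [Fintype E] [DecidableEq E]

private def gg (v : V) : Option V → V
  | none => v
  | some u => u

private theorem gg_mv (a : E → V) (v : V) (e1 e2 e : E) : gg v (mv a v e1 e2 e) = a e := by
  unfold mv
  split_ifs with h
  · exact h.2.symm
  · rfl

private theorem gd_none (a b : E → V) (v : V) (e1 e2 : E) :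
    gd (fun e => gg v (sa a v e1 e2 e)) (fun e => gg v (sb b v e1 e2 e)) (none : Option E) = 0 := by
  funext u
  show (Pi.single v 1 + Pi.single v 1 : V → ZMod 2) u = 0
  rw [Pi.add_apply]
  exact CharTwo.add_self_eq_zero _

private theorem gd_some (a b : E → V) (v : V) (e1 e2 e : E) :
    gd (fun e => gg v (sa a v e1 e2 e)) (fun e => gg v (sb b v e1 e2 e)) (some e) = gd a b e := by
  show (Pi.single (gg v (mv a v e1 e2 e)) 1 + Pi.single (gg v (mv b v e1 e2 e)) 1 : V → ZMod 2) =
    Pi.single (a e) 1 + Pi.single (b e) 1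
  rw [gg_mv, gg_mv]

theorem split_forget (a b : E → V) (x : E → ℕ) (w : ℕ) (v : V) (e1 e2 : E)
    (h : SumEven (sa a v e1 e2) (sb b v e1 e2) (sx x w)) : SumEven a b x := by
  obtain ⟨ι, hι, C, hC, hx⟩ := h
  refine ⟨ι, hι, fun j => Finset.univ.filter fun e => some e ∈ C j, fun j => ?_, fun e => ?_⟩
  · have h1 : (∑ e ∈ C j, gd (fun e => gg v (sa a v e1 e2 e)) (fun e => gg v (sb b v e1 e2 e)) e) =
        0 := by
      funext w'
      rw [push_sum (sa a v e1 e2) (sb b v e1 e2) (gg v) (C j) w', hC j]
      simp
    have h2 : ∑ e ∈ Finset.univ.filter (fun e => some e ∈ C j), gd a b e =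
        ∑ e ∈ C j, gd (fun e => gg v (sa a v e1 e2 e)) (fun e => gg v (sb b v e1 e2 e)) e := by
      have h3 : (Finset.univ.filter fun e => some e ∈ C j) = Finset.eraseNone (C j) := by
        ext e
        simp
      rw [h3, Finset.sum_eraseNone]
      refine Finset.sum_congr rfl fun e he => ?_
      cases e with
      | none => exact (gd_none a b v e1 e2).symm
      | some e => exact (gd_some a b v e1 e2 e).symm
    rw [h2, h1]
  · have h1 := hx (some e)
    show x e = _
    rw [show x e = sx x w (some e) from rfl, h1]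
    congr 1
    ext j
    simp

end DBD
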