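import Pool.Agent.Lib.MP_dba578_co.DBD.SplitDefs

/-!
# Board DBD, module SplitMin: the weight of the new edge can be cut down to a bound of the other weights
-/

set_option autoImplicit false

namespace DBD

open DBA

variable {V E : Type} [Fintype V] [DecidableEq V] [Fintype E] [DecidableEq E]

omit [Fintype V] in
theorem split_min (a b : Option E → V) (x : E → ℕ) (w M : ℕ) (hM : ∀ e, x e ≤ M)
    (hA : Adm a b (sx x w)) : Adm a b (sx x (min w M)) := by
  rcases le_total w M with h | h
  · rwa [min_eq_left h]
  · rw [min_eq_right h]
    intro X e he
    have h1 := hA X e he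
    have hcong : ∀ S : Finset (Option E), none ∉ S → ∑ f ∈ S, sx x M f = ∑ f ∈ S, sx x w f := by
      intro S hS
      refine Finset.sum_congr rfl fun f hf => ?_
      cases f with
      | none => exact absurd hf hS
      | some f => rfl
    cases e with
    | none =>
      rw [hcong _ (Finset.notMem_erase _ _)]
      exact le_trans h h1
    | some e =>
      by_cases h2 : none ∈ (cut a b X).erase (some e)
      · calc sx x M (some e) ≤ M := hM e
          _ = sx x M none := rfl
          _ ≤ _ := Finset.single_le_sum (f := sx x M) (fun _ _ => Nat.zero_le _) h2
      · rw [hcong _ h2]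
        exact h1

end DBD
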