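import Pool.Agent.Lib.MP_dba578_co.DBD.SplitDefs

/-!
# Board DBD, module SplitMu: the measure drops when two edges are split off a vertex
-/

set_option autoImplicit false

namespace DBD

open DBA

variable {V E : Type} [Fintype V] [DecidableEq V] [Fintype E] [DecidableEq E]

omit [Fintype V] [DecidableEq E] in
private theorem deg_eq_sum (a b : E → V) (v : V) : deg a b Finset.univ v =
    ∑ e, ((if a e = v then 1 else 0) + (if b e = v then 1 else 0)) := by
  unfold deg
  rw [Finset.card_filter, Finset.card_filter, ← Finset.sum_add_distrib]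

private theorem sum_pair (e1 e2 : E) (h12 : e1 ≠ e2) (n : ℕ) :
    ∑ e : E, (if e = e1 ∨ e = e2 then n else 0) = 2 * n := by
  rw [← Finset.sum_filter, Finset.sum_const, smul_eq_mul]
  have h : (Finset.univ.filter fun e : E => e = e1 ∨ e = e2) = {e1, e2} := by
    ext e
    simp
  rw [h, Finset.card_pair h12]

theorem split_mu (a b : E → V) (hl : ∀ e, a e ≠ b e) (v : V) (e1 e2 : E) (h12 : e1 ≠ e2)
    (h1 : a e1 = v ∨ b e1 = v) (h2 : a e2 = v ∨ b e2 = v) (hv : 4 ≤ deg a b Finset.univ v) :
    L1 (sa a v e1 e2) (sb b v e1 e2) ≤ L1 a b ∧ L2 (sa a v e1 e2) (sb b v e1 e2) < L2 a b := by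
  have hs : ∀ e, (e = e1 ∨ e = e2) → (a e = v ∧ b e ≠ v) ∨ (a e ≠ v ∧ b e = v) := by
    intro e he
    have h3 : a e = v ∨ b e = v := by
      rcases he with rfl | rfl
      · exact h1
      · exact h2
    by_cases h : a e = v
    · exact Or.inl ⟨h, fun h' => hl e (h.trans h'.symm)⟩
    · exact Or.inr ⟨h, h3.resolve_left h⟩
  have hnone : deg (sa a v e1 e2) (sb b v e1 e2) Finset.univ none = 3 := by
    rw [deg_eq_sum, Fintype.sum_option]
    have key : ∀ e : E, ((if sa a v e1 e2 (some e) = none then 1 else 0) +
        (if sb b v e1 e2 (some e) = none then 1 else 0) : ℕ) =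
        if e = e1 ∨ e = e2 then 1 else 0 := by
      intro e
      simp only [sa, sb, mv]
      by_cases he : e = e1 ∨ e = e2
      · rcases hs e he with ⟨h3, h4⟩ | ⟨h3, h4⟩ <;> simp [he, h3, h4]
      · simp [he]
    rw [Finset.sum_congr rfl fun e _ => key e, sum_pair e1 e2 h12]
    simp [sa, sb]
  have hsome : ∀ u, deg (sa a v e1 e2) (sb b v e1 e2) Finset.univ (some u) +
      (if u = v then 2 else 0) = deg a b Finset.univ u + (if u = v then 1 else 0) := by
    intro u
    have key : ∀ e : E, ((if sa a v e1 e2 (some e) = some u then 1 else 0) +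
        (if sb b v e1 e2 (some e) = some u then 1 else 0) +
        (if e = e1 ∨ e = e2 then (if u = v then 1 else 0) else 0) : ℕ) =
        (if a e = u then 1 else 0) + (if b e = u then 1 else 0) := by
      intro e
      simp only [sa, sb, mv]
      by_cases he : e = e1 ∨ e = e2
      · by_cases hu : u = v
        · subst hu
          rcases hs e he with ⟨h3, h4⟩ | ⟨h3, h4⟩ <;> simp [he, h3, h4]
        · rcases hs e he with ⟨h3, h4⟩ | ⟨h3, h4⟩
          · have h5 : ¬ v = u := fun h => hu h.symm
            simp [he, h3, h4, hu, h5]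
          · have h5 : ¬ v = u := fun h => hu h.symm
            simp [he, h3, h4, hu, h5]
      · simp [he]
    have hsum := Finset.sum_congr (rfl : (Finset.univ : Finset E) = Finset.univ)
      fun e _ => key e
    rw [Finset.sum_add_distrib, sum_pair e1 e2 h12, ← deg_eq_sum a b u] at hsum
    rw [deg_eq_sum (sa a v e1 e2), Fintype.sum_option]
    have h3 : ((if sa a v e1 e2 none = some u then 1 else 0) +
        (if sb b v e1 e2 none = some u then 1 else 0) : ℕ) = if u = v then 1 else 0 := by
      by_cases hu : u = v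
      · simp [sa, sb, hu]
      · have h5 : ¬ v = u := fun h => hu h.symm
        simp [sa, sb, hu, h5]
    rw [h3]
    by_cases hu : u = v
    · simp only [hu, if_true] at hsum ⊢
      omega
    · simp only [hu, if_false] at hsum ⊢
      omega
  have hterm : ∀ u, (deg (sa a v e1 e2) (sb b v e1 e2) Finset.univ (some u) - 3) +
      (if u = v then 1 else 0) = deg a b Finset.univ u - 3 := by
    intro u
    have h3 := hsome u
    by_cases hu : u = v
    · subst hu
      simp only [if_true] at h3 ⊢
      omega
    · simp only [hu, if_false] at h3 ⊢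
      omega
  have hsum : ∑ u, (deg (sa a v e1 e2) (sb b v e1 e2) Finset.univ (some u) - 3) + 1 =
      ∑ u, (deg a b Finset.univ u - 3) := by
    rw [← Finset.sum_congr rfl fun u _ => hterm u, Finset.sum_add_distrib,
      Finset.sum_ite_eq' Finset.univ v, if_pos (Finset.mem_univ v)]
  unfold L1 L2
  rw [Fintype.sum_option, hnone, Fintype.card_option, Fintype.card_option, ← hsum]
  omega

end DBD
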