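import Pool.Agent.Lib.MP_dba578_co.DBD.Push

/-!
# Board DBD, module Two: vertices of degree 2
-/

set_option autoImplicit false

namespace DBD

open DBA

variable {V E : Type} [Fintype V] [DecidableEq V] [Fintype E] [DecidableEq E]

omit [Fintype V] [DecidableEq E] in
private theorem mem_cut_single (a b : E → V) (hl : ∀ e, a e ≠ b e) (v : V) (e : E) :
    e ∈ cut a b {v} ↔ (a e = v ∨ b e = v) := by
  unfold cut
  simp only [Finset.mem_filter, Finset.mem_univ, true_and, Finset.mem_singleton]
  constructor
  · intro h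
    by_contra hcon
    push Not at hcon
    exact h ⟨fun h1 => absurd h1 hcon.1, fun h1 => absurd h1 hcon.2⟩
  · rintro (h | h) h2
    · exact hl e (h.trans (h2.1 h).symm)
    · exact hl e ((h2.2 h).trans h.symm)

omit [Fintype V] in
private theorem card_cut_single (a b : E → V) (hl : ∀ e, a e ≠ b e) (v : V) :
    (cut a b {v}).card = deg a b Finset.univ v := by
  unfold deg
  rw [← Finset.card_union_of_disjoint]
  · congr 1
    ext e
    rw [mem_cut_single a b hl]
    simp
  · rw [Finset.disjoint_filter]
    intro e _ h1 h2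
    exact hl e (h1.trans h2.symm)

omit [Fintype V] in
private theorem card_side (c : E → V) (u v : V) (e1 : E) (hc : c e1 = u ∨ c e1 = v)
    (g : V → {w // w ≠ v}) (hg : ∀ w, w ≠ v → (g w).1 = w) (hgv : (g v).1 = u) (w : {w // w ≠ v}) :
    (Finset.univ.filter fun e : {e // e ≠ e1} => g (c e) = w).card +
      (if w.1 = u then 1 else 0) ≤
      (Finset.univ.filter fun e => c e = w.1).card +
        (if w.1 = u then (Finset.univ.filter fun e => c e = v).card else 0) := by
  have h0 : (Finset.univ.filter fun e : {e // e ≠ e1} => g (c e) = w).card =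
      (Finset.univ.filter fun e : E => e ≠ e1 ∧ g (c e) = w).card := by
    rw [← Finset.card_map (Function.Embedding.subtype _)]
    congr 1
    ext e
    simp only [Finset.mem_map, Finset.mem_filter, Finset.mem_univ, true_and,
      Function.Embedding.subtype_apply, Subtype.exists]
    constructor
    · rintro ⟨e', h1, h2, rfl⟩
      exact ⟨h1, h2⟩
    · rintro ⟨h1, h2⟩
      exact ⟨e, h1, h2, rfl⟩
  rw [h0]
  by_cases hw : w.1 = u
  · rw [if_pos hw, if_pos hw]
    have h1 : (Finset.univ.filter fun e : E => e ≠ e1 ∧ g (c e) = w) ⊆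
        ((Finset.univ.filter fun e => c e = w.1) ∪ (Finset.univ.filter fun e => c e = v)).erase e1 := by
      intro e he
      rw [Finset.mem_filter] at he
      rw [Finset.mem_erase, Finset.mem_union, Finset.mem_filter, Finset.mem_filter]
      refine ⟨he.2.1, ?_⟩
      by_cases h2 : c e = v
      · exact Or.inr ⟨Finset.mem_univ _, h2⟩
      · refine Or.inl ⟨Finset.mem_univ _, ?_⟩
        rw [← hg (c e) h2, he.2.2]
    have h2 := Finset.card_le_card h1
    have h3 : e1 ∈ (Finset.univ.filter fun e => c e = w.1) ∪ (Finset.univ.filter fun e => c e = v) := by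
      rw [Finset.mem_union, Finset.mem_filter, Finset.mem_filter, hw]
      rcases hc with h | h
      · exact Or.inl ⟨Finset.mem_univ _, h⟩
      · exact Or.inr ⟨Finset.mem_univ _, h⟩
    rw [Finset.card_erase_of_mem h3] at h2
    have h4 := Finset.card_pos.2 ⟨e1, h3⟩
    have h5 := Finset.card_union_le (Finset.univ.filter fun e => c e = w.1)
      (Finset.univ.filter fun e => c e = v)
    omega
  · rw [if_neg hw, if_neg hw]
    refine Nat.add_le_add_right (Finset.card_le_card ?_) 0
    intro e he
    rw [Finset.mem_filter] at he ⊢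
    refine ⟨Finset.mem_univ _, ?_⟩
    by_cases h2 : c e = v
    · exfalso
      apply hw
      rw [← he.2.2, h2, hgv]
    · rw [← hg (c e) h2, he.2.2]

theorem sumEven_of_two {Q : ℕ → Prop} (a b : E → V) (x : E → ℕ)
    (hIH : IH Q (L1 a b) (L2 a b)) (hx : ∀ e, Q (x e))
    (hA : Adm a b x) (hl : ∀ e, a e ≠ b e) (v : V) (hv : deg a b Finset.univ v = 2) :
    SumEven a b x := by
  have hcard := card_cut_single a b hl v
  rw [hv] at hcard
  obtain ⟨e1, e2, h12, hF⟩ := Finset.card_eq_two.1 hcard
  have hm : ∀ e, (a e = v ∨ b e = v) ↔ (e = e1 ∨ e = e2) := by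
    intro e
    rw [← mem_cut_single a b hl v e, hF]
    simp
  have hxe : x e1 = x e2 := by
    have h1 := hA {v} e1 (by rw [hF]; simp)
    have h2 := hA {v} e2 (by rw [hF]; simp)
    rw [hF] at h1 h2
    have h3 : ({e1, e2} : Finset E).erase e1 = {e2} := by
      rw [Finset.erase_insert]
      simpa using h12
    have h4 : ({e1, e2} : Finset E).erase e2 = {e1} := by
      rw [Finset.pair_comm, Finset.erase_insert]
      simpa using h12.symm
    rw [h3, Finset.sum_singleton] at h1
    rw [h4, Finset.sum_singleton] at h2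
    exact le_antisymm h1 h2
  obtain ⟨u, huv, hu⟩ : ∃ u, u ≠ v ∧ ((a e1 = u ∧ b e1 = v) ∨ (a e1 = v ∧ b e1 = u)) := by
    rcases (hm e1).2 (Or.inl rfl) with h | h
    · exact ⟨b e1, fun h' => hl e1 (h.trans h'.symm), Or.inr ⟨h, rfl⟩⟩
    · exact ⟨a e1, fun h' => hl e1 (h'.trans h.symm), Or.inl ⟨rfl, h⟩⟩
  let g : V → {w // w ≠ v} := fun w => if h : w = v then ⟨u, huv⟩ else ⟨w, h⟩
  have hg : ∀ w, w ≠ v → (g w).1 = w := by
    intro w hw
    simp [g, hw]
  have hgv : (g v).1 = u := by simp [g]
  have hg1 : g (a e1) = g (b e1) := by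
    apply Subtype.ext
    rcases hu with ⟨h1, h2⟩ | ⟨h1, h2⟩
    · rw [h1, h2, hgv, hg u huv]
    · rw [h1, h2, hgv, hg u huv]
  have hadm := adm_pull a b x hA g (fun e => e ≠ e1) (by
    intro e he
    rw [not_not.1 he]
    exact Or.inl hg1)
  have hmu : L1 (fun e : {e // e ≠ e1} => g (a e)) (fun e : {e // e ≠ e1} => g (b e)) < L1 a b := by
    unfold L1
    have hV : Fintype.card {w // w ≠ v} < Fintype.card V :=
      Fintype.card_subtype_lt (x := v) (by simp)
    have hd : ∀ w : {w // w ≠ v},
        deg (fun e : {e // e ≠ e1} => g (a e)) (fun e : {e // e ≠ e1} => g (b e)) Finset.univ w ≤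
          deg a b Finset.univ w.1 := by
      intro w
      have h1 := card_side a u v e1 (by rcases hu with h | h; exact Or.inl h.1; exact Or.inr h.1)
        g hg hgv w
      have h2 := card_side b u v e1 (by rcases hu with h | h; exact Or.inr h.2; exact Or.inl h.2)
        g hg hgv w
      unfold deg at hv
      change (Finset.univ.filter fun e : {e // e ≠ e1} => g (a e) = w).card +
        (Finset.univ.filter fun e : {e // e ≠ e1} => g (b e) = w).card ≤
        (Finset.univ.filter fun e => a e = w.1).card + (Finset.univ.filter fun e => b e = w.1).card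
      split_ifs at h1 h2 <;> omega
    have hs : ∑ w : {w // w ≠ v},
        (deg (fun e : {e // e ≠ e1} => g (a e)) (fun e : {e // e ≠ e1} => g (b e)) Finset.univ w - 3) ≤
          ∑ w, (deg a b Finset.univ w - 3) := by
      calc _ ≤ ∑ w : {w // w ≠ v}, (deg a b Finset.univ w.1 - 3) :=
            Finset.sum_le_sum fun w _ => Nat.sub_le_sub_right (hd w) 3
        _ = ∑ w ∈ Finset.univ.filter (fun w => w ≠ v), (deg a b Finset.univ w - 3) :=
            (Finset.sum_subtype (p := fun w => w ≠ v) (Finset.univ.filter (fun w => w ≠ v))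
              (fun w => by simp) (fun w => deg a b Finset.univ w - 3)).symm
        _ ≤ _ := Finset.sum_le_sum_of_subset (Finset.filter_subset _ _)
    omega
  obtain ⟨ι, hι, C', hC', hcnt⟩ := hIH _ _ _ _ _ (Or.inl hmu) (fun e => hx e) hadm
  let D : ι → Finset E := fun j => (C' j).map (Function.Embedding.subtype _)
  have hD : ∀ j e, e ∈ D j ↔ ∃ h : e ≠ e1, (⟨e, h⟩ : {e // e ≠ e1}) ∈ C' j := by
    intro j e
    simp only [D, Finset.mem_map, Function.Embedding.subtype_apply, Subtype.exists]
    constructor
    · rintro ⟨e', h1, h2, rfl⟩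
      exact ⟨h1, h2⟩
    · rintro ⟨h1, h2⟩
      exact ⟨e, h1, h2, rfl⟩
  have he1D : ∀ j, e1 ∉ D j := fun j h => by
    obtain ⟨h1, _⟩ := (hD j e1).1 h
    exact h1 rfl
  have hpush : ∀ j w', ∑ w ∈ Finset.univ.filter (fun w => g w = w'), (∑ e ∈ D j, gd a b e) w = 0 := by
    intro j w'
    rw [← push_sum a b g (D j) w']
    have h1 : ∑ e ∈ D j, gd (fun e => g (a e)) (fun e => g (b e)) e =
        ∑ e ∈ C' j, gd (fun e : {e // e ≠ e1} => g (a e)) (fun e : {e // e ≠ e1} => g (b e)) e := by
      simp only [D, Finset.sum_map]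
      rfl
    rw [h1, hC' j, Pi.zero_apply]
  have hSw : ∀ j w, w ≠ v → w ≠ u → (∑ e ∈ D j, gd a b e) w = 0 := by
    intro j w hwv hwu
    have h1 := hpush j ⟨w, hwv⟩
    have h2 : Finset.univ.filter (fun w' => g w' = ⟨w, hwv⟩) = {w} := by
      ext w'
      simp only [Finset.mem_filter, Finset.mem_univ, true_and, Finset.mem_singleton]
      constructor
      · intro h
        by_cases h3 : w' = v
        · exfalso
          rw [h3] at h
          have := congrArg Subtype.val h
          rw [hgv] at this
          exact hwu this.symm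
        · have := congrArg Subtype.val h
          rw [hg w' h3] at this
          exact this
      · rintro rfl
        exact Subtype.ext (hg w' hwv)
    rwa [h2, Finset.sum_singleton] at h1
  have hSu : ∀ j, (∑ e ∈ D j, gd a b e) u + (∑ e ∈ D j, gd a b e) v = 0 := by
    intro j
    have h1 := hpush j ⟨u, huv⟩
    have h2 : Finset.univ.filter (fun w' => g w' = ⟨u, huv⟩) = {u, v} := by
      ext w'
      simp only [Finset.mem_filter, Finset.mem_univ, true_and, Finset.mem_singleton,
        Finset.mem_insert]
      constructor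
      · intro h
        by_cases h3 : w' = v
        · exact Or.inr h3
        · have := congrArg Subtype.val h
          rw [hg w' h3] at this
          exact Or.inl this
      · rintro (rfl | rfl)
        · exact Subtype.ext (hg w' huv)
        · exact Subtype.ext hgv
    rwa [h2, Finset.sum_pair huv] at h1
  have hgd : ∀ e, e ≠ e1 → gd a b e v = if e = e2 then 1 else 0 := by
    intro e he
    unfold gd
    rw [Pi.add_apply, Pi.single_apply, Pi.single_apply]
    by_cases h2 : e = e2
    · rw [if_pos h2]
      rcases (hm e).2 (Or.inr h2) with h | h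
      · rw [if_pos h.symm, if_neg (fun h' => hl e (h.trans h')), add_zero]
      · rw [if_neg (fun h' => hl e (h'.symm.trans h.symm)), if_pos h.symm, zero_add]
    · rw [if_neg h2]
      have h3 : ¬ (a e = v ∨ b e = v) := fun h => by
        rcases (hm e).1 h with h | h
        · exact he h
        · exact h2 h
      push Not at h3
      rw [if_neg (fun h => h3.1 h.symm), if_neg (fun h => h3.2 h.symm), add_zero]
  have hSv : ∀ j, (∑ e ∈ D j, gd a b e) v = if e2 ∈ D j then 1 else 0 := by
    intro j
    rw [Finset.sum_apply, Finset.sum_congr rfl fun e he => hgd e (fun h => he1D j (h ▸ he)),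
      Finset.sum_ite_eq']
  have hge1 : ∀ w, gd a b e1 w = if w = u ∨ w = v then 1 else 0 := by
    intro w
    unfold gd
    rw [Pi.add_apply, Pi.single_apply, Pi.single_apply]
    rcases hu with ⟨h1, h2⟩ | ⟨h1, h2⟩
    · rw [h1, h2]
      by_cases h3 : w = u
      · simp [h3, huv]
      · by_cases h4 : w = v
        · simp [h4, Ne.symm huv]
        · simp [h3, h4]
    · rw [h1, h2]
      by_cases h3 : w = u
      · simp [h3, huv]
      · by_cases h4 : w = v
        · simp [h4, Ne.symm huv]
        · simp [h3, h4]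
  refine ⟨ι, hι, fun j => if e2 ∈ D j then insert e1 (D j) else D j, ?_, ?_⟩
  · intro j
    dsimp only
    funext w
    have e11 : (1 : ZMod 2) + 1 = 0 := rfl
    have hu' := hSu j
    have hv' := hSv j
    split_ifs with h
    · rw [if_pos h] at hv'
      rw [Finset.sum_insert (he1D j), Pi.add_apply, hge1, Pi.zero_apply]
      by_cases h3 : w = u
      · rw [if_pos (Or.inl h3), h3]
        rw [hv'] at hu'
        rw [add_comm]
        exact hu'
      · by_cases h4 : w = v
        · rw [if_pos (Or.inr h4), h4, hv']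
          exact e11
        · rw [if_neg (by tauto), hSw j w h4 h3, add_zero]
    · rw [if_neg h] at hv'
      rw [Pi.zero_apply]
      by_cases h3 : w = u
      · rw [h3]
        rwa [hv', add_zero] at hu'
      · by_cases h4 : w = v
        · rw [h4, hv']
        · exact hSw j w h4 h3
  · intro e
    by_cases he : e = e1
    · rw [he, hxe]
      have h1 := hcnt ⟨e2, h12.symm⟩
      rw [show x e2 = (fun e : {e // e ≠ e1} => x e) ⟨e2, h12.symm⟩ from rfl, h1]
      congr 1
      ext j
      simp only [Finset.mem_filter, Finset.mem_univ, true_and]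
      by_cases h2 : e2 ∈ D j
      · rw [if_pos h2]
        obtain ⟨h3, h4⟩ := (hD j e2).1 h2
        simp [h4]
      · rw [if_neg h2]
        refine iff_of_false (fun h => h2 ((hD j e2).2 ⟨h12.symm, h⟩)) (he1D j)
    · have h1 := hcnt ⟨e, he⟩
      rw [show x e = (fun e : {e // e ≠ e1} => x e) ⟨e, he⟩ from rfl, h1]
      congr 1
      ext j
      simp only [Finset.mem_filter, Finset.mem_univ, true_and]
      have h3 : (⟨e, he⟩ : {e // e ≠ e1}) ∈ C' j ↔ e ∈ D j :=
        ⟨fun h => (hD j e).2 ⟨he, h⟩, fun h => by obtain ⟨_, h4⟩ := (hD j e).1 h; exact h4⟩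
      rw [h3]
      split_ifs with h2
      · rw [Finset.mem_insert]
        exact ⟨Or.inr, fun h => h.resolve_left he⟩
      · exact Iff.rfl

end DBD
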