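import Pool.Agent.Lib.MP_dba578_co.DBD.Zero
import Pool.Agent.Lib.MP_dba578_co.DBD.Loop
import Pool.Agent.Lib.MP_dba578_co.DBD.Iso
import Pool.Agent.Lib.MP_dba578_co.DBD.One
import Pool.Agent.Lib.MP_dba578_co.DBD.Two
import Pool.Agent.Lib.MP_dba578_co.DBD.SplitAdm
import Pool.Agent.Lib.MP_dba578_co.DBD.SplitMu
import Pool.Agent.Lib.MP_dba578_co.DBD.SplitForget
import Pool.Agent.Lib.MP_dba578_co.DBD.SplitMin
import Pool.Agent.Lib.MP_dba578_co.DBD.Glue

/-!
# Board DBD, module Main: the reduction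
-/

set_option autoImplicit false

namespace DBD

open DBA

theorem isSum_of_sumEven {V E : Type} [Fintype V] [DecidableEq V] [Fintype E] [DecidableEq E]
    (a b : E → V) (x : E → ℕ) (h : SumEven a b x) : IsSumOfCycles a b x := by
  obtain ⟨ι, _, C, hC, hx⟩ := h
  obtain ⟨k, M, hM, hk⟩ := dec_family (gd a b) C hC
  exact ⟨k, M, fun j => isCycle_of_minEven a b _ (hM j), fun e => by rw [hx e, ← hk e]⟩

theorem sumEven_of_isSum {V E : Type} [Fintype V] [DecidableEq V] [Fintype E] [DecidableEq E]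
    (a b : E → V) (x : E → ℕ) (h : IsSumOfCycles a b x) : SumEven a b x := by
  obtain ⟨k, C, hC, hx⟩ := h
  refine ⟨Fin k, inferInstance, C, fun j => ?_, hx⟩
  funext v
  rw [sum_gd_apply, Pi.zero_apply]
  rcases (hC j).2.1 v with h | h <;> rw [h]
  · rfl
  · rfl

theorem step (M n : ℕ) (hM : Even M)
    (H : ∀ (V E : Type) [Fintype V] [DecidableEq V] [Fintype E] [DecidableEq E] (a b : E → V)
      (x : E → ℕ), Fintype.card V ≤ n → Core a b x → (∀ e, Even (x e)) → (∀ e, x e ≤ M) →
      Adm a b x → IsSumOfCycles a b x)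
    {V E : Type} [Fintype V] [DecidableEq V] [Fintype E] [DecidableEq E] (a b : E → V)
    (x : E → ℕ) (hn : L1 a b ≤ n)
    (hIH : IH (fun y => Even y ∧ y ≤ M) (L1 a b) (L2 a b)) (hx : ∀ e, Even (x e) ∧ x e ≤ M)
    (hA : Adm a b x) : SumEven a b x := by
  by_cases hl : ∃ e, a e = b e
  · obtain ⟨e0, h0⟩ := hl
    exact sumEven_of_loop a b x hIH hx hA e0 h0
  push Not at hl
  by_cases hz : ∃ e, x e = 0
  · obtain ⟨e0, h0⟩ := hz
    exact sumEven_of_zero a b x hIH hx hA e0 h0
  by_cases h0 : ∃ v, deg a b Finset.univ v = 0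
  · obtain ⟨v, hv⟩ := h0
    exact sumEven_of_iso a b x hIH hx hA v hv
  by_cases h1 : ∃ v, deg a b Finset.univ v = 1
  · obtain ⟨v, hv⟩ := h1
    exact absurd (zero_of_one a b x hA hl v hv) hz
  by_cases h2 : ∃ v, deg a b Finset.univ v = 2
  · obtain ⟨v, hv⟩ := h2
    exact sumEven_of_two a b x hIH hx hA hl v hv
  by_cases h4 : ∃ v, 4 ≤ deg a b Finset.univ v
  · obtain ⟨v, hv⟩ := h4
    have h12 : ∃ e1 e2, e1 ≠ e2 ∧ (a e1 = v ∨ b e1 = v) ∧ (a e2 = v ∨ b e2 = v) := by
      have h5 : 1 < (Finset.univ.filter fun e => a e = v ∨ b e = v).card := by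
        by_contra hcon
        have h6 : (Finset.univ.filter fun e => a e = v).card ≤
            (Finset.univ.filter fun e => a e = v ∨ b e = v).card :=
          Finset.card_le_card fun e he => by
            rw [Finset.mem_filter] at he ⊢
            exact ⟨he.1, Or.inl he.2⟩
        have h7 : (Finset.univ.filter fun e => b e = v).card ≤
            (Finset.univ.filter fun e => a e = v ∨ b e = v).card :=
          Finset.card_le_card fun e he => by
            rw [Finset.mem_filter] at he ⊢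
            exact ⟨he.1, Or.inr he.2⟩
        unfold deg at hv
        omega
      obtain ⟨e1, he1, e2, he2, hne⟩ := Finset.one_lt_card.1 h5
      exact ⟨e1, e2, hne, (Finset.mem_filter.1 he1).2, (Finset.mem_filter.1 he2).2⟩
    obtain ⟨e1, e2, hne, he1, he2⟩ := h12
    obtain ⟨w, hw, hadm⟩ := split_adm a b x (fun e => (hx e).1) hA v e1 e2
    have hadm' := split_min _ _ x w M (fun e => (hx e).2) hadm
    refine split_forget a b x (min w M) v e1 e2
      (hIH _ _ _ _ _ (Or.inr (split_mu a b hl v e1 e2 hne he1 he2 hv)) ?_ hadm')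
    intro e
    cases e with
    | none =>
      refine ⟨?_, min_le_right _ _⟩
      change Even (min w M)
      rcases le_total w M with h | h
      · rw [min_eq_left h]
        exact hw
      · rw [min_eq_right h]
        exact hM
    | some e => exact hx e
  have h3 : ∀ v, deg a b Finset.univ v = 3 := by
    intro v
    push Not at h0 h1 h2 h4
    have := h0 v
    have := h1 v
    have := h2 v
    have := h4 v
    omega
  by_cases hX : ∃ X : Finset V, 2 ≤ X.card ∧ 2 ≤ Xᶜ.card ∧ (cut a b X).card ≤ 3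
  · obtain ⟨X, hX1, hX2, hX3⟩ := hX
    exact sumEven_of_cut a b x hIH hx hA h3 X (by omega) (by omega) (Or.inl hX3)
  by_cases hY : ∃ X : Finset V, 2 ≤ X.card ∧ 2 ≤ Xᶜ.card ∧ (cut a b X).card ≤ X.card ∧
      (cut a b X).card ≤ Xᶜ.card ∧ ∃ e ∈ cut a b X, ∑ f ∈ (cut a b X).erase e, x f ≤ x e
  · obtain ⟨X, hX1, hX2, hX3, hX4, e0, he0, hX5⟩ := hY
    exact sumEven_of_cut a b x hIH hx hA h3 X (by omega) (by omega)
      (Or.inr ⟨e0, he0, le_antisymm (hA X e0 he0) hX5⟩)
  push Not at hX hY hz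
  have hL : Fintype.card V ≤ n := by
    unfold L1 at hn
    omega
  exact sumEven_of_isSum a b x (H V E a b x hL ⟨h3, fun e => Nat.pos_of_ne_zero (hz e),
    fun X h1 h2 => ⟨hX X h1 h2, fun h4 h5 e he => hY X h1 h2 h4 h5 e he⟩⟩
    (fun e => (hx e).1) (fun e => (hx e).2) hA)

theorem main (M n : ℕ) (hM : Even M)
    (H : ∀ (V E : Type) [Fintype V] [DecidableEq V] [Fintype E] [DecidableEq E] (a b : E → V)
      (x : E → ℕ), Fintype.card V ≤ n → Core a b x → (∀ e, Even (x e)) → (∀ e, x e ≤ M) →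
      Adm a b x → IsSumOfCycles a b x)
    (V E : Type) [Fintype V] [DecidableEq V] [Fintype E] [DecidableEq E] (a b : E → V)
    (x : E → ℕ) (hn : Fintype.card V + ∑ v, (deg a b Finset.univ v - 3) ≤ n)
    (hx : ∀ e, Even (x e)) (hxM : ∀ e, x e ≤ M) (hA : Adm a b x) : IsSumOfCycles a b x := by
  have key : ∀ l, l ≤ n → ∀ k, IH (fun y => Even y ∧ y ≤ M) l k := by
    intro l
    induction l using Nat.strong_induction_on with
    | _ l ihl =>
      intro hln k
      induction k using Nat.strong_induction_on with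
      | _ k ihk =>
        intro V E _ _ _ _ a b x hmu hx hA
        rcases hmu with hmu | ⟨hmu1, hmu2⟩
        · exact ihl (L1 a b) hmu (by omega) (L2 a b + 1) V E a b x
            (Or.inr ⟨le_rfl, Nat.lt_succ_self _⟩) hx hA
        · refine step M n hM H a b x (by omega) ?_ hx hA
          intro V' E' _ _ _ _ a' b' x' h' hx' hA'
          rcases h' with h' | ⟨h1, h2⟩
          · exact ihl (L1 a' b') (by omega) (by omega) (L2 a' b' + 1) V' E' a' b' x'
              (Or.inr ⟨le_rfl, Nat.lt_succ_self _⟩) hx' hA'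
          · exact ihk (L2 a b) hmu2 V' E' a' b' x' (Or.inr ⟨by omega, h2⟩) hx' hA'
  exact isSum_of_sumEven a b x (key (L1 a b) hn (L2 a b + 1) V E a b x
    (Or.inr ⟨le_rfl, Nat.lt_succ_self _⟩) (fun e => ⟨hx e, hxM e⟩) hA)

end DBD
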