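import Pool.Agent.Lib.MP_dba578_co.DBD.Defs

/-!
# Weights and even edge sets under maps of the vertex set
-/

set_option autoImplicit false

namespace DBD

open DBA

theorem adm_pull {V V' E : Type} [Fintype V] [DecidableEq V] [Fintype V'] [DecidableEq V'] [Fintype E]
    [DecidableEq E] (a b : E → V) (x : E → ℕ) (hA : Adm a b x) (g : V → V') (p : E → Prop)
    [DecidablePred p] (hp : ∀ e, ¬ p e → g (a e) = g (b e) ∨ x e = 0) :
    Adm (fun e : {e // p e} => g (a e)) (fun e : {e // p e} => g (b e))
      (fun e : {e // p e} => x e) := by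
  intro X' e' he'
  have hmem : ∀ v, v ∈ Finset.univ.filter (fun v => g v ∈ X') ↔ g v ∈ X' := fun v => by simp
  have he : ((e' : {e // p e}) : E) ∈ cut a b (Finset.univ.filter fun v => g v ∈ X') := by
    unfold cut at he' ⊢
    rw [Finset.mem_filter] at he' ⊢
    refine ⟨Finset.mem_univ _, ?_⟩
    rw [hmem, hmem]
    exact he'.2
  refine (hA _ _ he).trans ?_
  have h1 : ∑ f ∈ (cut (fun e : {e // p e} => g (a e)) (fun e : {e // p e} => g (b e)) X').erase e', x f =
      ∑ f ∈ ((cut (fun e : {e // p e} => g (a e)) (fun e : {e // p e} => g (b e)) X').erase e').map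
        (Function.Embedding.subtype p), x f := by
    rw [Finset.sum_map]
    rfl
  rw [h1]
  apply Finset.sum_le_sum_of_ne_zero
  intro f hf hx
  rw [Finset.mem_erase] at hf
  obtain ⟨hfe, hfc⟩ := hf
  unfold cut at hfc
  rw [Finset.mem_filter, hmem, hmem] at hfc
  have hpf : p f := by
    by_contra hcon
    rcases hp f hcon with h | h
    · exact hfc.2 (by rw [h])
    · exact hx h
  rw [Finset.mem_map]
  refine ⟨⟨f, hpf⟩, ?_, rfl⟩
  rw [Finset.mem_erase]
  refine ⟨fun h => hfe (congrArg Subtype.val h), ?_⟩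
  unfold cut
  rw [Finset.mem_filter]
  exact ⟨Finset.mem_univ _, hfc.2⟩

private theorem single_fibre {V V' : Type} [Fintype V] [DecidableEq V] [DecidableEq V'] (g : V → V')
    (v : V) (w' : V') : (Pi.single (g v) (1 : ZMod 2) : V' → ZMod 2) w' =
      ∑ w ∈ Finset.univ.filter (fun w => g w = w'), (Pi.single v (1 : ZMod 2) : V → ZMod 2) w := by
  have h1 : ∀ w, (Pi.single v (1 : ZMod 2) : V → ZMod 2) w = if w = v then 1 else 0 := fun w => by
    rw [Pi.single_apply]
  simp only [h1, Finset.sum_ite_eq', Finset.mem_filter, Finset.mem_univ, true_and, Pi.single_apply]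
  by_cases h : w' = g v
  · rw [if_pos h, if_pos h.symm]
  · rw [if_neg h, if_neg (fun h2 => h h2.symm)]

theorem push_sum {V V' E : Type} [Fintype V] [DecidableEq V] [Fintype V'] [DecidableEq V'] 
    (a b : E → V) (g : V → V') (C : Finset E) (w' : V') :
    (∑ e ∈ C, gd (fun e => g (a e)) (fun e => g (b e)) e) w' =
      ∑ w ∈ Finset.univ.filter (fun w => g w = w'), (∑ e ∈ C, gd a b e) w := by
  simp only [Finset.sum_apply]
  rw [Finset.sum_comm]
  refine Finset.sum_congr rfl fun e _ => ?_
  unfold gd
  simp only [Pi.add_apply]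
  rw [Finset.sum_add_distrib, single_fibre g (a e) w', single_fibre g (b e) w']

theorem sum_sub {V E : Type} [DecidableEq V] (a b : E → V) (p : E → Prop)
    (C : Finset {e // p e}) :
    ∑ e ∈ C, gd (fun e : {e // p e} => a e) (fun e : {e // p e} => b e) e =
      ∑ e ∈ C.map (Function.Embedding.subtype p), gd a b e := by
  rw [Finset.sum_map]
  rfl

end DBD
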