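import Pool.Agent.Lib.MP_dba578_co.DBD.Push

/-!
# Board DBD: splitting two edges `e1`, `e2` off the vertex `v` and joining the new vertex `none` to `v`
-/

set_option autoImplicit false

namespace DBD

open DBA

variable {V E : Type} [DecidableEq V] [DecidableEq E]

/-- First (or second) ends in the split graph: the ends of `e1`, `e2` at `v` are moved to the new vertex `none`. -/
def mv (a : E → V) (v : V) (e1 e2 : E) (e : E) : Option V :=
  if (e = e1 ∨ e = e2) ∧ a e = v then none else some (a e)

def sa (a : E → V) (v : V) (e1 e2 : E) : Option E → Option V
  | none => none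
  | some e => mv a v e1 e2 e

def sb (b : E → V) (v : V) (e1 e2 : E) : Option E → Option V
  | none => some v
  | some e => mv b v e1 e2 e

def sx (x : E → ℕ) (w : ℕ) : Option E → ℕ
  | none => w
  | some e => x e

end DBD
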