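import Pool.Agent.Lib.MP_dba578_co.DBD.Push

/-!
# Board DBD, module Zero: an edge of weight zero can be deleted
-/

set_option autoImplicit false

namespace DBD

open DBA

variable {V E : Type} [Fintype V] [DecidableEq V] [Fintype E] [DecidableEq E]

omit [Fintype V] [DecidableEq E] in
/-- degrees do not grow if edges are removed -/
private theorem deg_sub_le (a b : E → V) (p : E → Prop) [DecidablePred p] (v : V) :
    deg (fun e : {e // p e} => a e) (fun e : {e // p e} => b e) Finset.univ v ≤
      deg a b Finset.univ v := by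
  have key : ∀ q : E → Prop, ∀ [DecidablePred q],
      (Finset.univ.filter fun e : {e // p e} => q e).card ≤ (Finset.univ.filter q).card := by
    intro q _
    refine Finset.card_le_card_of_injOn Subtype.val (fun e he => ?_) (fun e _ e' _ h => Subtype.ext h)
    rw [Finset.mem_coe, Finset.mem_filter] at he ⊢
    exact ⟨Finset.mem_univ _, he.2⟩
  exact Nat.add_le_add (key fun e => a e = v) (key fun e => b e = v)

theorem sumEven_of_zero {Q : ℕ → Prop} (a b : E → V) (x : E → ℕ)
    (hIH : IH Q (L1 a b) (L2 a b)) (hx : ∀ e, Q (x e))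
    (hA : Adm a b x) (e0 : E) (h0 : x e0 = 0) : SumEven a b x := by
  have hA' := adm_pull a b x hA id (fun e => e ≠ e0) (fun e he => Or.inr (by
    rw [not_not.1 he, h0]))
  have hmu : L1 (fun e : {e // e ≠ e0} => a e) (fun e : {e // e ≠ e0} => b e) ≤ L1 a b ∧
      L2 (fun e : {e // e ≠ e0} => a e) (fun e : {e // e ≠ e0} => b e) < L2 a b := by
    have h1 : Fintype.card {e // e ≠ e0} < Fintype.card E :=
      Fintype.card_subtype_lt (p := fun e => e ≠ e0) (x := e0) (by simp)
    have h2 : ∑ v, (deg (fun e : {e // e ≠ e0} => a e) (fun e : {e // e ≠ e0} => b e)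
        Finset.univ v - 3) ≤ ∑ v, (deg a b Finset.univ v - 3) :=
      Finset.sum_le_sum fun v _ => Nat.sub_le_sub_right (deg_sub_le a b (fun e => e ≠ e0) v) 3
    unfold L1 L2
    omega
  obtain ⟨ι, hι, C, hC, hCx⟩ := hIH V {e // e ≠ e0} (fun e => a e) (fun e => b e)
    (fun e => x e) (Or.inr hmu) (fun e => hx e) hA'
  refine ⟨ι, hι, fun j => (C j).map (Function.Embedding.subtype _), fun j => ?_, fun e => ?_⟩
  · rw [← sum_sub a b (fun e => e ≠ e0) (C j)]
    exact hC j
  · by_cases he : e = e0
    · subst he
      rw [h0]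
      symm
      rw [Finset.card_eq_zero, Finset.filter_eq_empty_iff]
      intro j _ hj
      rw [Finset.mem_map] at hj
      obtain ⟨e', _, h⟩ := hj
      exact e'.2 h
    · have h1 : x e = _ := hCx ⟨e, he⟩
      rw [h1]
      congr 1
      refine Finset.filter_congr fun j _ => ?_
      constructor
      · intro h
        exact Finset.mem_map.2 ⟨⟨e, he⟩, h, rfl⟩
      · intro h
        obtain ⟨e', he', h'⟩ := Finset.mem_map.1 h
        have : e' = ⟨e, he⟩ := Subtype.ext h'
        rwa [this] at he'

end DBD
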